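import Pool.Agent.H934R3.D74.Defs
import Pool.Agent.H934R2.Expl.Whole
import Pool.Agent.H389R2.Dim.Lower
import Pool.Agent.H389R2.Dim.Upper

/-!
Statements (as propositions, nothing is assumed) of the tasks of the project
`the trace of the exploration path has Hausdorff dimension 7/4 in every subsequential limit`.
-/

namespace H934F

open H974 H973 H12S H934E Finset MeasureTheory TopologicalSpace Filter Topology

/-! ### Definitions -/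

/-- Open arm of the vertex `v` to the left. -/
def ArmL (h : ℤ) (v : Vtx) (F : Finset Edg) : Prop :=
  ∃ y : Vtx, y.1 = v.1 - 6 * h ∧
    Reach (↑F ∩ ↑(RE (v.1 - 6 * h) (v.1 + 2 * h) (v.2 - 2 * h) (v.2 + 2 * h))) v y

/-- Dual arm of the face `cface v s` to the right. -/
def ArmR (s : Bool × Bool) (h : ℤ) (v : Vtx) (F : Finset Edg) : Prop :=
  ∃ g : Vtx, g.1 = v.1 + 6 * h ∧
    DReach (↑(RE (v.1 - 2 * h) (v.1 + 6 * h) (v.2 - 2 * h) (v.2 + 2 * h) \ F) : Set Edg)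
      (cface v s) g

/-- Both arms. -/
def E2 (s : Bool × Bool) (h : ℤ) (v : Vtx) (F : Finset Edg) : Prop := ArmL h v F ∧ ArmR s h v F

/-- The box above `(0,0)` in which the visited vertices are counted. -/
noncomputable def core (h : ℤ) : Finset Vtx := Finset.Icc (-h) h ×ˢ Finset.Icc (3 * h) (5 * h)

/-- Open top-bottom crossing of the left strip. -/
def CL (h : ℤ) (F : Finset Edg) : Prop := TBc (-(5 * h)) (-(3 * h) - 1) 0 (7 * h) F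

/-- Dual top-bottom crossing of the right strip. -/
def CR (h : ℤ) (F : Finset Edg) : Prop :=
  ∃ x x' : ℤ, (3 * h + 1 ≤ x ∧ x < 5 * h) ∧ (3 * h + 1 ≤ x' ∧ x' < 5 * h) ∧
    DReach (↑(LRE (3 * h + 1) (5 * h) 0 (7 * h) \ F) : Set Edg) (x, -1) (x', 7 * h)

/-- The half-annulus of scale `h`; those of scales `h`, `16 h`, `256 h`, … are disjoint. -/
noncomputable def HA2 (h : ℤ) : Finset Vtx :=
  (Finset.Icc (-(7 * h)) (7 * h) ×ˢ Finset.Icc 0 (7 * h)).filter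
    (fun y => y.1 ≤ -(3 * h) ∨ 3 * h ≤ y.1 ∨ h ≤ y.2)

/-- Its edges. -/
noncomputable def SR (h : ℤ) : Finset Edg := ES (HA2 h)

/-- Distance of two vertices (maximum norm). -/
def nd (v w : Vtx) : ℤ := max |v.1 - w.1| |v.2 - w.2|

open Classical in
/-- The vertices of the core with both arms. -/
noncomputable def VS (s : Bool × Bool) (h : ℤ) (F : Finset Edg) : Finset Vtx :=
  (core h).filter (fun v => E2 s h v F)

/-- Their energy. -/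
noncomputable def En (t : ℝ) (s : Bool × Bool) (h : ℤ) (F : Finset Edg) : ℝ :=
  ∑ v ∈ VS s h F, ∑ w ∈ VS s h F, ((max (nd v w) 1 : ℤ) : ℝ) ^ (-t)

/-- The good event at scale `h`. -/
def Gd2 (c0 E0 t : ℝ) (s : Bool × Bool) (h : ℤ) (F : Finset Edg) : Prop :=
  (CL h F ∧ CR h F) ∧ c0 * (h : ℝ) ^ (7/4 : ℝ) ≤ ((VS s h F).card : ℝ) ∧
    En t s h F ≤ E0 * (h : ℝ) ^ (7/2 - t)

/-! ### Tasks -/

/-- T1a: Harris' inequality for an event `A` which is increasing in the edges of `U` only. -/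
def St_T1a : Prop := ∀ (S U : Finset Edg) (A B : Finset Edg → Prop), U ⊆ S →
  (∀ F G, F ⊆ S → F ⊆ G → G ⊆ F ∪ U → A F → A G) → (∀ F G : Finset Edg, F ⊆ G → B F → B G) →
  (∀ F, B F ↔ B (F ∩ U)) → Q S A * Q S B ≤ Q S (fun F => A F ∧ B F)

/-- T1b: the same for decreasing events. -/
def St_T1b : Prop := ∀ (S U : Finset Edg) (A B : Finset Edg → Prop), U ⊆ S →
  (∀ F G, F ⊆ S → G ⊆ F → F ⊆ G ∪ U → A F → A G) → (∀ F G : Finset Edg, F ⊆ G → B G → B F) →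
  (∀ F, B F ↔ B (F ∩ U)) → Q S A * Q S B ≤ Q S (fun F => A F ∧ B F)

/-- T1c: gluing of the arms to the two strips. -/
def St_T1c : Prop := ∀ (h : ℤ), 2 ≤ h → ∀ (S : Finset Edg), SR h ⊆ S → ∀ (s : Bool × Bool),
  ∀ v ∈ core h, dlt * dlt * Q S (E2 s h v) ≤ Q S (fun F => E2 s h v F ∧ CL h F ∧ CR h F)

/-- T2: one-point lower bound. -/
def St_T2 : Prop := St_L → ∃ (c : ℝ) (s : Bool × Bool), 0 < c ∧ ∀ h : ℤ, 1 ≤ h →
  ∀ (v : Vtx) (S : Finset Edg),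
    RE (v.1 - 6 * h) (v.1 + 6 * h) (v.2 - 2 * h) (v.2 + 2 * h) ⊆ S →
    c * (h : ℝ) ^ (-(1/4) : ℝ) ≤ Q S (E2 s h v)

/-- T3: two-point upper bound. -/
def St_T3 : Prop := St_A → ∃ C : ℝ, 0 < C ∧ ∀ h : ℤ, 1 ≤ h → ∀ v w : Vtx, nd v w ≤ 2 * h →
  ∀ (S : Finset Edg), RE (v.1 - 6 * h) (v.1 + 6 * h) (v.2 - 2 * h) (v.2 + 2 * h) ⊆ S →
    RE (w.1 - 6 * h) (w.1 + 6 * h) (w.2 - 2 * h) (w.2 + 2 * h) ⊆ S → ∀ s : Bool × Bool,
    Q S (fun F => E2 s h v F ∧ E2 s h w F) ≤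
      C * ((max (nd v w) 1 : ℤ) : ℝ) ^ (-(1/4) : ℝ) * (h : ℝ) ^ (-(1/4) : ℝ)

/-- T4: the arms of a vertex of the core and the two crossings connect the vertex to the first
and the face to the second arc of the boundary. -/
def St_T4 : Prop := ∀ (R : Rect) (δ : ℝ), 0 < δ → ∀ h : ℤ, 2 ≤ h →
  16 * (h : ℝ) * δ ≤ R.L0 → ∀ F : Finset Edg, F ⊆ R.edges δ → CL h F → CR h F →
  ∀ (s : Bool × Bool), ∀ v ∈ core h, E2 s h v F → v ∈ R.clu δ F ∧ cface v s ∈ R.dclu δ F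

/-- T5: the good event has positive probability (second moment method). -/
def St_T5 : Prop := St_A → St_L → ∀ t : ℝ, 0 < t → t < 7/4 →
  ∃ (s : Bool × Bool) (c0 E0 p : ℝ), 0 < c0 ∧ 0 < E0 ∧ 0 < p ∧ p ≤ 1 ∧
    ∀ h : ℤ, 2 ≤ h → ∀ S : Finset Edg, SR h ⊆ S → p ≤ Q S (Gd2 c0 E0 t s h)

/-- T6: independence of the scales. -/
def St_T6 : Prop := ∀ (p : ℝ), p ≤ 1 → ∀ (c0 E0 t : ℝ) (s : Bool × Bool) (u : ℤ), 2 ≤ u →
  (∀ h : ℤ, 2 ≤ h → ∀ S : Finset Edg, SR h ⊆ S → p ≤ Q S (Gd2 c0 E0 t s h)) →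
  ∀ (J : ℕ) (S : Finset Edg), (∀ j < J, SR (16 ^ j * u) ⊆ S) →
    Q S (fun F => ∀ j < J, ¬ Gd2 c0 E0 t s (16 ^ j * u) F) ≤ (1 - p) ^ J

/-- T7: on the good event the trace is good in the sense of `H389R2.Dim.Lower`. -/
def St_T7 : Prop := ∀ (R : Rect) (δ : ℝ), 0 < δ → ∀ h : ℤ, 2 ≤ h →
  16 * (h : ℝ) * δ ≤ R.L0 → ∀ F : Finset Edg, F ⊆ R.edges δ →
  ∀ (c0 E0 t : ℝ) (s : Bool × Bool), 0 < c0 → 0 < E0 → 0 < t → Gd2 c0 E0 t s h F →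
  ∀ δ' : ℝ, δ ≤ δ' →
    Pool.Agent.H389R2.Dim.Good t δ' (2 ^ (-t) / (E0 / c0 ^ 2 * (δ * h) ^ (-t))) (R.path δ F)

/-- T8: lower bound for the dimension of the limits. -/
def St_T8 : Prop := St_A → St_L → ∀ (R : Rect) (δ : ℕ → ℝ) (hδ : ∀ i, 0 < δ i),
  Tendsto δ atTop (𝓝 0) → ∀ μ : ProbabilityMeasure (NonemptyCompacts ℂ),
    Tendsto (fun i => R.law (hδ i)) atTop (𝓝 μ) → ∀ t : ℝ, 0 < t → t < 7/4 →
    ∀ᵐ (K : NonemptyCompacts ℂ) ∂(μ : Measure (NonemptyCompacts ℂ)),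
      ENNReal.ofReal t ≤ dimH (K : Set ℂ)

/-- T9: if the path meets the disc `B(z,r)` there are two arms to distance about `d`, when
`B(z,d)` lies in the domain. -/
def St_T9 : Prop := St_A → ∃ C : ℝ, 0 < C ∧ ∀ (R : Rect) (z : ℂ) (r d : ℝ), 0 < r → r ≤ d →
  Metric.ball z d ⊆ R.D → ∀ (δ : ℝ) (hδ : 0 < δ), δ ≤ r →
    (R.law hδ : Measure (NonemptyCompacts ℂ))
        {K : NonemptyCompacts ℂ | ((K : Set ℂ) ∩ Metric.ball z r).Nonempty} ≤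
      ENNReal.ofReal (C * (r / d) ^ (1/4 : ℝ))

/-- T10: upper bound for the dimension of the limits inside the domain. -/
def St_T10 : Prop := St_A → ∀ (R : Rect) (δ : ℕ → ℝ) (hδ : ∀ i, 0 < δ i),
  Tendsto δ atTop (𝓝 0) → ∀ μ : ProbabilityMeasure (NonemptyCompacts ℂ),
    Tendsto (fun i => R.law (hδ i)) atTop (𝓝 μ) →
    ∀ᵐ (K : NonemptyCompacts ℂ) ∂(μ : Measure (NonemptyCompacts ℂ)),
      dimH ((K : Set ℂ) ∩ R.D) ≤ 7 / 4

/-- T11: the limits live on compact subsets of the closed rectangle. -/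
def St_T11 : Prop := ∀ (R : Rect) (δ : ℕ → ℝ) (hδ : ∀ i, 0 < δ i),
  Tendsto δ atTop (𝓝 0) → ∀ μ : ProbabilityMeasure (NonemptyCompacts ℂ),
    Tendsto (fun i => R.law (hδ i)) atTop (𝓝 μ) →
    ∀ᵐ (K : NonemptyCompacts ℂ) ∂(μ : Measure (NonemptyCompacts ℂ)),
      (K : Set ℂ) ⊆ closure R.D

/-- T12: lower bound for the probability to meet a disc above `b`, on the lattice. -/
def St_T12 : Prop := St_A → St_L → ∃ (c : ℝ) (s : Bool × Bool), 0 < c ∧ ∀ h : ℤ, 2 ≤ h →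
  ∀ S : Finset Edg, SR h ⊆ S → ∀ z : Vtx, ∀ r : ℤ, 1 ≤ r →
    (∀ v : Vtx, nd v z ≤ r → v ∈ core h) →
    c * ((r : ℝ) / h) ^ (1/4 : ℝ) ≤
      Q S (fun F => (CL h F ∧ CR h F) ∧ ∃ v : Vtx, nd v z ≤ r ∧ E2 s h v F)

/-- T13: the same for the limits. -/
def St_T13 : Prop := St_A → St_L → ∃ c : ℝ, 0 < c ∧ ∀ (R : Rect) (δ : ℕ → ℝ) (hδ : ∀ i, 0 < δ i),
  Tendsto δ atTop (𝓝 0) → ∀ μ : ProbabilityMeasure (NonemptyCompacts ℂ),
    Tendsto (fun i => R.law (hδ i)) atTop (𝓝 μ) → ∀ (x y r : ℝ), 0 < r → r ≤ y →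
      8 * |x| ≤ y → 8 * y ≤ R.L0 →
      c * (r / y) ^ (1/4 : ℝ) ≤ (μ : Measure (NonemptyCompacts ℂ)).real
        {K : NonemptyCompacts ℂ | ((K : Set ℂ) ∩ Metric.closedBall ⟨x, y⟩ r).Nonempty}

end H934F
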