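import Pool.Agent.H934R3.D74.Props

/-!
T3: the two-point upper bound.
-/

namespace H934F

open H974 H973 H12S H934E Finset

/-- Adjacency for both lattices. -/
def t3_A (a b : Edg → Vtx) (F : Set Edg) (u v : Vtx) : Prop :=
  ∃ e ∈ F, (a e = u ∧ b e = v) ∨ (a e = v ∧ b e = u)

theorem t3_first (a b : Edg → Vtx) (F X : Set Edg) (B : Vtx → Prop)
    (hX : ∀ e ∈ F, B (a e) ∨ B (b e) → e ∈ X) {x y : Vtx}
    (h : Relation.ReflTransGen (t3_A a b F) x y) (hy : ¬ B y) :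
    ∃ z, ¬ B z ∧ Relation.ReflTransGen (t3_A a b (F ∩ X)) x z := by
  induction h using Relation.ReflTransGen.head_induction_on with
  | refl => exact ⟨y, hy, .refl⟩
  | @head x x' hs _ ih =>
    obtain ⟨z, hz, hp⟩ := ih
    by_cases hx : B x
    · obtain ⟨e, he, hc⟩ := hs
      refine ⟨z, hz, .head ⟨e, ⟨he, hX e he ?_⟩, hc⟩ hp⟩
      rcases hc with ⟨h1, h2⟩ | ⟨h1, h2⟩
      · left; rw [h1]; exact hx
      · right; rw [h2]; exact hx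
    · exact ⟨x, hx, .refl⟩

theorem t3_reach {F X G : Set Edg} (B : Vtx → Prop)
    (hX : ∀ e ∈ F, B (src e) ∨ B (tgt e) → e ∈ X) (hG : F ∩ X ⊆ G) {x y : Vtx}
    (h : Reach F x y) (hy : ¬ B y) : ∃ z, ¬ B z ∧ Reach G x z := by
  obtain ⟨z, hz, hp⟩ := t3_first src tgt F X B hX h hy
  exact ⟨z, hz, Reach.mono hG hp⟩

theorem t3_dreach {F X G : Set Edg} (B : Vtx → Prop)
    (hX : ∀ e ∈ F, B (dsrc e) ∨ B (dtgt e) → e ∈ X) (hG : F ∩ X ⊆ G) {x y : Vtx}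
    (h : DReach F x y) (hy : ¬ B y) : ∃ z, ¬ B z ∧ DReach G x z := by
  obtain ⟨z, hz, hp⟩ := t3_first dsrc dtgt F X B hX h hy
  exact ⟨z, hz, DReach.mono hG hp⟩

/-- The annulus event in the edge set `X`. -/
def t3_An (X : Finset Edg) (v : Vtx) (r R : ℕ) (F : Finset Edg) : Prop :=
  Crs v.1 v.2 r R (↑(F ∩ X) : Set Edg) ∧ DCrs v.1 v.2 r R (↑(X \ F) : Set Edg)

theorem t3_loc (X : Finset Edg) (v : Vtx) (r R : ℕ) (F : Finset Edg) :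
    t3_An X v r R F ↔ t3_An X v r R (F ∩ X) := by
  unfold t3_An
  have h1 : F ∩ X ∩ X = F ∩ X := by
    ext e; simp only [Finset.mem_inter]; tauto
  have h2 : X \ (F ∩ X) = X \ F := by
    ext e; simp only [Finset.mem_inter, Finset.mem_sdiff]; tauto
  rw [h1, h2]

theorem t3_loc' {X Y : Finset Edg} (hXY : X ⊆ Y) (v : Vtx) (r R : ℕ) (F : Finset Edg) :
    t3_An X v r R F ↔ t3_An X v r R (F ∩ Y) := by
  unfold t3_An
  have h1 : F ∩ Y ∩ X = F ∩ X := by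
    ext e; simp only [Finset.mem_inter]
    constructor
    · rintro ⟨⟨h1, _⟩, h3⟩; exact ⟨h1, h3⟩
    · rintro ⟨h1, h3⟩; exact ⟨⟨h1, hXY h3⟩, h3⟩
  have h2 : X \ (F ∩ Y) = X \ F := by
    ext e; simp only [Finset.mem_inter, Finset.mem_sdiff]
    constructor
    · rintro ⟨h1, h2⟩; exact ⟨h1, fun h => h2 ⟨h, hXY h1⟩⟩
    · rintro ⟨h1, h2⟩; exact ⟨h1, fun h => h2 h.1⟩
  rw [h1, h2]

theorem t3_pr {C : ℝ} (hA : ∀ r R : ℕ, 1 ≤ r → r ≤ R → ∀ (c1 c2 : ℤ) (S : Finset Edg),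
    PQ (1/2) S (fun F => Crs c1 c2 r R ↑F ∧ DCrs c1 c2 r R (↑(S \ F) : Set Edg)) ≤
      C * ((r : ℝ) / R) ^ (1/4 : ℝ)) {X S : Finset Edg} (hXS : X ⊆ S) (v : Vtx) {r R : ℕ}
    (hr : 1 ≤ r) (hR : r ≤ R) : Q S (t3_An X v r R) ≤ C * ((r:ℝ)/R)^(1/4:ℝ) := by
  have h1 : Q S (t3_An X v r R) = Q X (t3_An X v r R) :=
    Pr_local hXS (fun F _ => t3_loc X v r R F)
  rw [h1]
  refine le_trans (le_of_eq ?_) (hA r R hr hR v.1 v.2 X)
  apply Pr_congr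
  intro F hF
  unfold t3_An
  rw [Finset.inter_eq_left.mpr hF]

/-- The box of radius `ρ`. -/
noncomputable def t3_B (v : Vtx) (ρ : ℤ) : Finset Edg :=
  RE (v.1 - ρ) (v.1 + ρ) (v.2 - ρ) (v.2 + ρ)

/-- The large rectangle. -/
noncomputable def t3_L (v : Vtx) (h : ℤ) : Finset Edg :=
  RE (v.1 - 6 * h) (v.1 + 6 * h) (v.2 - 2 * h) (v.2 + 2 * h)

theorem t3_cface (v : Vtx) (s : Bool × Bool) :
    (v.1 - 1 ≤ (cface v s).1 ∧ (cface v s).1 ≤ v.1) ∧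
      (v.2 - 1 ≤ (cface v s).2 ∧ (cface v s).2 ≤ v.2) := by
  obtain ⟨s1, s2⟩ := s
  unfold cface
  cases s1 <;> cases s2 <;> simp

theorem t3_edge_far {v : Vtx} {m : ℤ} {e : Edg} (he : e ∈ t3_B v m) :
    ((v.1 - m ≤ (src e).1 ∧ (src e).1 ≤ v.1 + m ∧ v.2 - m ≤ (src e).2 ∧ (src e).2 ≤ v.2 + m) ∧
    (v.1 - m ≤ (tgt e).1 ∧ (tgt e).1 ≤ v.1 + m ∧ v.2 - m ≤ (tgt e).2 ∧ (tgt e).2 ≤ v.2 + m)) ∧
    ((v.1 - (m + 1) ≤ (dsrc e).1 ∧ (dsrc e).1 ≤ v.1 + (m + 1) ∧ v.2 - (m + 1) ≤ (dsrc e).2 ∧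
      (dsrc e).2 ≤ v.2 + (m + 1)) ∧
    (v.1 - (m + 1) ≤ (dtgt e).1 ∧ (dtgt e).1 ≤ v.1 + (m + 1) ∧ v.2 - (m + 1) ≤ (dtgt e).2 ∧
      (dtgt e).2 ≤ v.2 + (m + 1))) := by
  unfold t3_B at he
  obtain ⟨x, y, _ | _⟩ := e
  · simp only [mem_RE_false] at he
    simp only [src_mk, tgt_false, dsrc_false, dtgt_mk]
    omega
  · simp only [mem_RE_true] at he
    simp only [src_mk, tgt_true, dsrc_true, dtgt_mk]
    omega

/-- Strictly inside of the box of radius `ρ`. -/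
def t3_in (v : Vtx) (ρ : ℤ) (z : Vtx) : Prop :=
  v.1 - ρ < z.1 ∧ z.1 < v.1 + ρ ∧ v.2 - ρ < z.2 ∧ z.2 < v.2 + ρ

theorem t3_edge_near {v : Vtx} {m : ℤ} {e : Edg}
    (he : t3_in v m (src e) ∨ t3_in v m (tgt e)) : e ∈ t3_B v m := by
  unfold t3_B
  unfold t3_in at he
  obtain ⟨x, y, _ | _⟩ := e
  · simp only [mem_RE_false]
    simp only [src_mk, tgt_false] at he
    omega
  · simp only [mem_RE_true]
    simp only [src_mk, tgt_true] at he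
    omega

theorem t3_edge_near' {v : Vtx} {m : ℤ} {e : Edg}
    (he : t3_in v m (dsrc e) ∨ t3_in v m (dtgt e)) : e ∈ t3_B v m := by
  unfold t3_B
  unfold t3_in at he
  obtain ⟨x, y, _ | _⟩ := e
  · simp only [mem_RE_false]
    simp only [dsrc_false, dtgt_mk] at he
    omega
  · simp only [mem_RE_true]
    simp only [dsrc_true, dtgt_mk] at he
    omega

theorem t3_near {s : Bool × Bool} {h : ℤ} {v : Vtx} {F : Finset Edg} (ρ : ℕ)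
    (hρ : (ρ:ℤ) ≤ 6 * h) (hE : E2 s h v F) : t3_An (t3_B v ρ) v 1 ρ F := by
  obtain ⟨⟨y, hy, h1⟩, ⟨g, hg, h2⟩⟩ := hE
  constructor
  · obtain ⟨z, hz, hp⟩ := t3_reach (G := (↑(F ∩ t3_B v ρ) : Set Edg))
      (X := (↑(t3_B v ρ) : Set Edg)) (t3_in v ρ)
      (fun e _ he => by exact_mod_cast t3_edge_near he) (by
        rw [Finset.coe_inter]
        exact fun e he => ⟨he.1.1, he.2⟩) h1 (by unfold t3_in; omega)
    refine ⟨v, z, ?_, ?_, hp⟩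
    · unfold inR; push_cast; omega
    · unfold t3_in at hz; omega
  · obtain ⟨z, hz, hp⟩ := t3_dreach (G := (↑(t3_B v ρ \ F) : Set Edg))
      (X := (↑(t3_B v ρ) : Set Edg)) (t3_in v ρ)
      (fun e _ he => by exact_mod_cast t3_edge_near' he) (by
        rw [Finset.coe_sdiff, Finset.coe_sdiff]
        exact fun e he => ⟨he.2, he.1.2⟩) h2 (by unfold t3_in; omega)
    have := t3_cface v s
    refine ⟨cface v s, z, ?_, ?_, hp⟩
    · unfold inR; push_cast; omega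
    · unfold t3_in at hz; omega

theorem t3_L1 (v : Vtx) (h : ℕ) :
    RE (v.1 - 6 * h) (v.1 + 2 * h) (v.2 - 2 * h) (v.2 + 2 * h) ⊆ t3_L v h :=
  RE_subset (by omega) (by omega) (by omega) (by omega)

theorem t3_L2 (v : Vtx) (h : ℕ) :
    RE (v.1 - 2 * h) (v.1 + 6 * h) (v.2 - 2 * h) (v.2 + 2 * h) ⊆ t3_L v h :=
  RE_subset (by omega) (by omega) (by omega) (by omega)

theorem t3_far {s : Bool × Bool} {h : ℕ} {v : Vtx} {F : Finset Edg} (m : ℕ) (hm : 1 ≤ m)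
    (hE : E2 s h v F) : t3_An (t3_L v h \ t3_B v (m - 1 : ℤ)) v m (6 * h) F := by
  obtain ⟨⟨y, hy, h1⟩, ⟨g, hg, h2⟩⟩ := hE
  constructor
  · obtain ⟨z, hz, hp⟩ := t3_reach (G := (↑(F ∩ (t3_L v h \ t3_B v (m - 1 : ℤ))) : Set Edg))
      (X := (↑(t3_B v (m - 1 : ℤ)) : Set Edg)ᶜ)
      (fun z => ¬ (v.1 - m ≤ z.1 ∧ z.1 ≤ v.1 + m ∧ v.2 - m ≤ z.2 ∧ z.2 ≤ v.2 + m))
      (fun e _ he => by
        intro h3
        have h4 := t3_edge_far (e := e) (by exact_mod_cast h3)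
        omega) (by
        rw [Finset.coe_inter, Finset.coe_sdiff]
        refine fun e he => ⟨he.1.1, ?_, he.2⟩
        have h3 : e ∈ RE (v.1 - 6 * h) (v.1 + 2 * h) (v.2 - 2 * h) (v.2 + 2 * h) :=
          Finset.mem_coe.1 he.1.2
        exact Finset.mem_coe.2 (t3_L1 v h h3)) h1.symm (by omega)
    refine ⟨z, y, ?_, ?_, hp.symm⟩
    · unfold inR; omega
    · push_cast; omega
  · obtain ⟨z, hz, hp⟩ := t3_dreach (G := (↑((t3_L v h \ t3_B v (m - 1 : ℤ)) \ F) : Set Edg))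
      (X := (↑(t3_B v (m - 1 : ℤ)) : Set Edg)ᶜ)
      (fun z => ¬ (v.1 - m ≤ z.1 ∧ z.1 ≤ v.1 + m ∧ v.2 - m ≤ z.2 ∧ z.2 ≤ v.2 + m))
      (fun e _ he => by
        intro h3
        have h4 := t3_edge_far (e := e) (by exact_mod_cast h3)
        omega) (by
        rw [Finset.coe_sdiff, Finset.coe_sdiff, Finset.coe_sdiff]
        refine fun e he => ⟨⟨?_, he.2⟩, he.1.2⟩
        have h3 : e ∈ RE (v.1 - 2 * h) (v.1 + 6 * h) (v.2 - 2 * h) (v.2 + 2 * h) :=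
          Finset.mem_coe.1 he.1.1
        exact Finset.mem_coe.2 (t3_L2 v h h3)) h2.symm (by
            have := t3_cface v s
            omega)
    refine ⟨z, g, ?_, ?_, hp.symm⟩
    · unfold inR; omega
    · push_cast; omega

theorem t3_nd {v w : Vtx} {K : ℕ} (hK : nd v w = K) :
    (v.1 - w.1 ≤ K ∧ w.1 - v.1 ≤ K ∧ v.2 - w.2 ≤ K ∧ w.2 - v.2 ≤ K) ∧
      (v.1 - w.1 = K ∨ w.1 - v.1 = K ∨ v.2 - w.2 = K ∨ w.2 - v.2 = K) := by
  unfold nd at hK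
  have h1 := le_max_left |v.1 - w.1| |v.2 - w.2|
  have h2 := le_max_right |v.1 - w.1| |v.2 - w.2|
  rw [hK] at h1 h2
  rw [abs_le] at h1 h2
  refine ⟨by omega, ?_⟩
  rcases max_choice |v.1 - w.1| |v.2 - w.2| with h | h
  · rw [h] at hK
    rcases abs_choice (v.1 - w.1) with h' | h' <;> rw [h'] at hK <;> omega
  · rw [h] at hK
    rcases abs_choice (v.2 - w.2) with h' | h' <;> rw [h'] at hK <;> omega

theorem t3_disj {v w : Vtx} {K : ℕ} (hK : nd v w = K) {ρ : ℕ} (hρ : 2 * ρ < K) :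
    Disjoint (t3_B v ρ) (t3_B w ρ) := by
  rw [Finset.disjoint_left]
  intro e h1 h2
  have h3 := (t3_edge_far h1).1.1
  have h4 := (t3_edge_far h2).1.1
  have := t3_nd hK
  omega

theorem t3_sub {v w : Vtx} {K : ℕ} (hK : nd v w = K) {ρ : ℕ} (hρ : 2 * ρ < K) :
    t3_B w ρ ⊆ t3_B v (((2 * K : ℕ) : ℤ) - 1) := by
  have := t3_nd hK
  exact RE_subset (by omega) (by omega) (by omega) (by omega)

theorem t3_sub' {v : Vtx} {K : ℕ} {ρ : ℕ} (hρ : 2 * ρ < K) :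
    t3_B v ρ ⊆ t3_B v (((2 * K : ℕ) : ℤ) - 1) :=
  RE_subset (by omega) (by omega) (by omega) (by omega)

theorem t3_sum {C : ℝ} (hC : 0 < C) {ρ K H : ℕ} (hρ : K ≤ 4 * ρ) (hK : 1 ≤ K) (hH : 1 ≤ H)
    {q1 q2 q3 : ℝ} (h1 : q1 ≤ C * (((1 : ℕ) : ℝ) / ρ) ^ (1/4 : ℝ))
    (h2 : q2 ≤ C * (((1 : ℕ) : ℝ) / ρ) ^ (1/4 : ℝ))
    (h3 : q3 ≤ C * (((2 * K : ℕ) : ℝ) / ((6 * H : ℕ) : ℝ)) ^ (1/4 : ℝ))
    (_h01 : 0 ≤ q1) (h02 : 0 ≤ q2) (h03 : 0 ≤ q3) :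
    q1 * (q2 * q3) ≤ 2 * C ^ 3 * ((K : ℝ) ^ (-(1/4) : ℝ) * (H : ℝ) ^ (-(1/4) : ℝ)) := by
  have hK' : (1 : ℝ) ≤ K := by exact_mod_cast hK
  have hH' : (1 : ℝ) ≤ H := by exact_mod_cast hH
  have hρ' : (K : ℝ) ≤ 4 * ρ := by exact_mod_cast hρ
  have hρ0 : (0 : ℝ) < ρ := by linarith
  have e1 : (((1 : ℕ) : ℝ) / ρ) ^ (1/4 : ℝ) ≤ (4 : ℝ) ^ (1/4 : ℝ) / (K : ℝ) ^ (1/4 : ℝ) := by
    rw [← Real.div_rpow (by norm_num) (by positivity)]
    apply Real.rpow_le_rpow (by positivity) _ (by norm_num)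
    rw [div_le_div_iff₀ hρ0 (by linarith)]
    push_cast
    linarith
  have e2 : (((2 * K : ℕ) : ℝ) / ((6 * H : ℕ) : ℝ)) ^ (1/4 : ℝ) ≤
      (K : ℝ) ^ (1/4 : ℝ) / (H : ℝ) ^ (1/4 : ℝ) := by
    rw [← Real.div_rpow (by positivity) (by positivity)]
    apply Real.rpow_le_rpow (by positivity) _ (by norm_num)
    rw [div_le_div_iff₀ (by push_cast; linarith) (by linarith)]
    push_cast
    nlinarith
  have e3 : (4 : ℝ) ^ (1/4 : ℝ) * (4 : ℝ) ^ (1/4 : ℝ) = 2 := by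
    rw [← Real.rpow_add (by norm_num), show (1/4 + 1/4 : ℝ) = 1/2 by norm_num,
      ← Real.sqrt_eq_rpow, show (4 : ℝ) = 2 ^ 2 by norm_num, Real.sqrt_sq (by norm_num)]
  rw [Real.rpow_neg (by positivity), Real.rpow_neg (by positivity)]
  have k0 : 0 < (K : ℝ) ^ (1/4 : ℝ) := Real.rpow_pos_of_pos (by linarith) _
  have l0 : 0 < (H : ℝ) ^ (1/4 : ℝ) := Real.rpow_pos_of_pos (by linarith) _
  have p0 : 0 < (4 : ℝ) ^ (1/4 : ℝ) := Real.rpow_pos_of_pos (by norm_num) _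
  set kk := (K : ℝ) ^ (1/4 : ℝ)
  set ll := (H : ℝ) ^ (1/4 : ℝ)
  set pp := (4 : ℝ) ^ (1/4 : ℝ)
  have g1 := h1.trans (mul_le_mul_of_nonneg_left e1 hC.le)
  have g2 := h2.trans (mul_le_mul_of_nonneg_left e1 hC.le)
  have g3 := h3.trans (mul_le_mul_of_nonneg_left e2 hC.le)
  calc q1 * (q2 * q3) ≤ (C * (pp / kk)) * ((C * (pp / kk)) * (C * (kk / ll))) := by
        apply mul_le_mul g1 (mul_le_mul g2 g3 h03 (by positivity)) (by positivity) (by positivity)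
    _ = (pp * pp) * C ^ 3 * (kk⁻¹ * ll⁻¹) := by
        field_simp
    _ = 2 * C ^ 3 * (kk⁻¹ * ll⁻¹) := by rw [e3]

theorem t3_small {C : ℝ} (hC : 0 < C) {m H : ℕ} (hm : m ≤ 2) (hm1 : 1 ≤ m) (hH : 1 ≤ H) {q : ℝ}
    (h : q ≤ C * (((1 : ℕ) : ℝ) / ((2 * H : ℕ) : ℝ)) ^ (1/4 : ℝ)) :
    q ≤ 2 * C * ((m : ℝ) ^ (-(1/4) : ℝ) * (H : ℝ) ^ (-(1/4) : ℝ)) := by
  have hH' : (1 : ℝ) ≤ H := by exact_mod_cast hH
  have hm' : (m : ℝ) ≤ 2 := by exact_mod_cast hm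
  have hm1' : (1 : ℝ) ≤ m := by exact_mod_cast hm1
  have e2 : (((1 : ℕ) : ℝ) / ((2 * H : ℕ) : ℝ)) ^ (1/4 : ℝ) ≤ 1 / (H : ℝ) ^ (1/4 : ℝ) := by
    rw [show (1 : ℝ) / (H : ℝ) ^ (1/4 : ℝ) = (1 / (H : ℝ)) ^ (1/4 : ℝ) by
      rw [Real.div_rpow (by norm_num) (by positivity), Real.one_rpow]]
    apply Real.rpow_le_rpow (by positivity) _ (by norm_num)
    rw [div_le_div_iff₀ (by push_cast; linarith) (by linarith)]
    push_cast
    linarith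
  have e3 : (m : ℝ) ^ (1/4 : ℝ) ≤ 2 := by
    calc (m : ℝ) ^ (1/4 : ℝ) ≤ (m : ℝ) ^ (1 : ℝ) :=
          Real.rpow_le_rpow_of_exponent_le hm1' (by norm_num)
      _ = m := Real.rpow_one _
      _ ≤ 2 := hm'
  rw [Real.rpow_neg (by positivity), Real.rpow_neg (by positivity)]
  have k0 : 0 < (m : ℝ) ^ (1/4 : ℝ) := Real.rpow_pos_of_pos (by linarith) _
  have l0 : 0 < (H : ℝ) ^ (1/4 : ℝ) := Real.rpow_pos_of_pos (by linarith) _
  set mm := (m : ℝ) ^ (1/4 : ℝ)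
  set ll := (H : ℝ) ^ (1/4 : ℝ)
  have e4 : 1 / 2 ≤ mm⁻¹ := by
    rw [← one_div]
    exact one_div_le_one_div_of_le k0 e3
  calc q ≤ C * (1 / ll) := h.trans (mul_le_mul_of_nonneg_left e2 hC.le)
    _ = 2 * C * ((1 / 2) * ll⁻¹) := by field_simp
    _ ≤ 2 * C * (mm⁻¹ * ll⁻¹) := by
        apply mul_le_mul_of_nonneg_left _ (by positivity)
        exact mul_le_mul_of_nonneg_right e4 (by positivity)

theorem t3 : St_T3 := by
  rintro ⟨C, hC, hA⟩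
  refine ⟨2 * C ^ 3 + 2 * C, by positivity, ?_⟩
  intro h hh v w hvw S hv hw s
  obtain ⟨H, rfl⟩ := Int.eq_ofNat_of_zero_le (show 0 ≤ h by omega)
  have hk0 : 0 ≤ nd v w := le_max_of_le_left (abs_nonneg _)
  obtain ⟨K, hK⟩ := Int.eq_ofNat_of_zero_le hk0
  rw [hK] at hvw ⊢
  have hH : 1 ≤ H := by omega
  have hLS : t3_L v H ⊆ S := hv
  have hH0 : 0 < (H : ℝ) ^ (-(1/4) : ℝ) := Real.rpow_pos_of_pos (by exact_mod_cast hH) _
  by_cases hK3 : K < 3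
  · have hm : (max (K : ℤ) 1) = ((max K 1 : ℕ) : ℤ) := by push_cast; rfl
    rw [hm]
    have hBS : t3_B v ((2 * H : ℕ) : ℤ) ⊆ S := by
      refine Finset.Subset.trans (RE_subset ?_ ?_ ?_ ?_) hv <;> push_cast <;> omega
    have h1 : Q S (fun F => E2 s H v F ∧ E2 s H w F) ≤ Q S (t3_An (t3_B v ((2 * H : ℕ) : ℤ)) v 1
        (2 * H)) := Q_mono (fun F _ hF => t3_near (2 * H) (by push_cast; omega) hF.1)
    have h2 := h1.trans (t3_pr hA hBS v le_rfl (by omega : 1 ≤ 2 * H))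
    have h3 := t3_small hC (m := max K 1) (by omega) (by omega) hH h2
    refine h3.trans ?_
    have hm0 : 0 < (((max K 1 : ℕ) : ℤ) : ℝ) ^ (-(1/4) : ℝ) := by
      apply Real.rpow_pos_of_pos
      have : 0 < max K 1 := by omega
      exact_mod_cast this
    have : (((max K 1 : ℕ) : ℤ) : ℝ) = ((max K 1 : ℕ) : ℝ) := by norm_cast
    rw [this] at hm0 ⊢
    have h5 : 0 ≤ 2 * C ^ 3 * ((((max K 1 : ℕ) : ℝ)) ^ (-(1/4) : ℝ) * (H : ℝ) ^ (-(1/4) : ℝ)) := by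
      positivity
    have h6 : (((H : ℕ) : ℤ) : ℝ) = (H : ℝ) := by norm_cast
    rw [h6]
    linarith
  · obtain ⟨ρ, hρ1, hρ2⟩ : ∃ ρ : ℕ, 2 * ρ < K ∧ K ≤ 4 * ρ := ⟨(K - 1) / 2, by omega, by omega⟩
    have hm : (max (K : ℤ) 1) = (K : ℤ) := by omega
    rw [hm]
    set X1 := t3_B v ρ with hX1
    set X2 := t3_B w ρ with hX2
    set X3 := t3_L v H \ t3_B v (((2 * K : ℕ) : ℤ) - 1) with hX3
    have s1 : X1 ⊆ S := by
      refine Finset.Subset.trans (RE_subset ?_ ?_ ?_ ?_) hv <;> omega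
    have s2 : X2 ⊆ S := by
      refine Finset.Subset.trans (RE_subset ?_ ?_ ?_ ?_) hw <;> omega
    have s3 : X3 ⊆ S := Finset.sdiff_subset.trans hLS
    have d12 : Disjoint X1 X2 := t3_disj hK hρ1
    have d13 : Disjoint X1 X3 :=
      Finset.disjoint_of_subset_left (t3_sub' hρ1) Finset.disjoint_sdiff
    have d23 : Disjoint X2 X3 :=
      Finset.disjoint_of_subset_left (t3_sub hK hρ1) Finset.disjoint_sdiff
    have i23 : Q S (fun F => t3_An X2 w 1 ρ F ∧ t3_An X3 v (2 * K) (6 * H) F) =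
        Q S (t3_An X2 w 1 ρ) * Q S (t3_An X3 v (2 * K) (6 * H)) :=
      Pr_indep s2 s3 d23 (fun F _ => t3_loc _ _ _ _ F) (fun F _ => t3_loc _ _ _ _ F)
    have i1 : Q S (fun F => t3_An X1 v 1 ρ F ∧
        (t3_An X2 w 1 ρ F ∧ t3_An X3 v (2 * K) (6 * H) F)) =
        Q S (t3_An X1 v 1 ρ) *
          Q S (fun F => t3_An X2 w 1 ρ F ∧ t3_An X3 v (2 * K) (6 * H) F) := by
      apply Pr_indep s1 (Finset.union_subset s2 s3) (Finset.disjoint_union_right.2 ⟨d12, d13⟩)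
        (fun F _ => t3_loc _ _ _ _ F)
      intro F _
      rw [t3_loc' (X := X2) Finset.subset_union_left (Y := X2 ∪ X3),
        t3_loc' (X := X3) Finset.subset_union_right (Y := X2 ∪ X3)]
    have h1 : Q S (fun F => E2 s H v F ∧ E2 s H w F) ≤ Q S (fun F => t3_An X1 v 1 ρ F ∧
        (t3_An X2 w 1 ρ F ∧ t3_An X3 v (2 * K) (6 * H) F)) :=
      Q_mono (fun F _ hF => ⟨t3_near ρ (by omega) hF.1, t3_near ρ (by omega) hF.2,
        t3_far (2 * K) (by omega) hF.1⟩)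
    rw [i1, i23] at h1
    have h2 := t3_sum hC (ρ := ρ) (K := K) (H := H) hρ2 (by omega) hH
      (t3_pr hA s1 v le_rfl (by omega)) (t3_pr hA s2 w le_rfl (by omega))
      (t3_pr hA s3 v (by omega) (by omega)) (Q_nonneg _ _) (Q_nonneg _ _) (Q_nonneg _ _)
    have h3 := h1.trans h2
    have hK0 : 0 < (K : ℝ) ^ (-(1/4) : ℝ) := by
      apply Real.rpow_pos_of_pos
      have : 0 < K := by omega
      exact_mod_cast this
    have h5 : 0 ≤ 2 * C * ((K : ℝ) ^ (-(1/4) : ℝ) * (H : ℝ) ^ (-(1/4) : ℝ)) := by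
      positivity
    have h6 : (((H : ℕ) : ℤ) : ℝ) = (H : ℝ) := by norm_cast
    have h7 : (((K : ℕ) : ℤ) : ℝ) = (K : ℝ) := by norm_cast
    rw [h6, h7]
    linarith

end H934F
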