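import Mathlib
import Pool.Agent.H389R2.Dim.Upper

/-!
Covering argument for the upper bound of the dimension inside the domain (task T10, helper93).
-/

namespace H934F

open MeasureTheory TopologicalSpace Filter Topology
open scoped ENNReal NNReal

/-- the points whose `d`-neighbourhood is contained in `D` -/
def t10_A (D : Set ℂ) (d : ℝ) : Set ℂ := {z | Metric.ball z d ⊆ D}

/-- the grid square of mesh `1 / N` with the index `(a, b)` -/
def t10_sq (N : ℝ) (a b : ℤ) : Set ℂ :=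
  {z | ((a : ℝ) ≤ N * z.re ∧ N * z.re < a + 1) ∧ ((b : ℝ) ≤ N * z.im ∧ N * z.im < b + 1)}

theorem t10_sq_dist {N : ℝ} (hN : 0 < N) {a b : ℤ} {z w : ℂ} (hz : z ∈ t10_sq N a b)
    (hw : w ∈ t10_sq N a b) : dist z w < 2 / N := by
  obtain ⟨⟨h1, h2⟩, h3, h4⟩ := hz
  obtain ⟨⟨g1, g2⟩, g3, g4⟩ := hw
  rw [Complex.dist_eq]
  have h := Complex.norm_le_abs_re_add_abs_im (z - w)
  have e0 : ∀ x : ℝ, N * |x| = |N * x| := fun x => by rw [abs_mul, abs_of_pos hN]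
  have e1 : N * |(z - w).re| < 1 := by
    rw [e0, abs_lt, Complex.sub_re]
    constructor <;> nlinarith
  have e2 : N * |(z - w).im| < 1 := by
    rw [e0, abs_lt, Complex.sub_im]
    constructor <;> nlinarith
  rw [lt_div_iff₀ hN]
  nlinarith

open Classical in
/-- the covering set: a ball around a point of `t10_A D d` in the grid square -/
noncomputable def t10_U (D : Set ℂ) (d N : ℝ) (a b : ℤ) : Set ℂ :=
  if h : (t10_sq N a b ∩ t10_A D d).Nonempty then Metric.ball h.some (2 / N) else ∅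

theorem t10_U_open (D : Set ℂ) (d N : ℝ) (a b : ℤ) : IsOpen (t10_U D d N a b) := by
  unfold t10_U
  split_ifs
  · exact Metric.isOpen_ball
  · exact isOpen_empty

theorem t10_U_ediam (D : Set ℂ) (d N : ℝ) (a b : ℤ) :
    Metric.ediam (t10_U D d N a b) ≤ ENNReal.ofReal (4 / N) := by
  unfold t10_U
  split_ifs with h
  · refine Metric.ediam_le_of_forall_dist_le ?_
    intro x hx y hy
    rw [Metric.mem_ball] at hx hy
    have h1 := dist_triangle_right x y h.some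
    have h2 : (4 : ℝ) / N = 2 / N + 2 / N := by ring
    linarith
  · simp

theorem t10_U_cover {D : Set ℂ} {d N : ℝ} (hN : 0 < N) {z : ℂ} (hz : z ∈ t10_A D d) :
    z ∈ t10_U D d N ⌊N * z.re⌋ ⌊N * z.im⌋ := by
  have h0 : z ∈ t10_sq N ⌊N * z.re⌋ ⌊N * z.im⌋ :=
    ⟨⟨Int.floor_le _, Int.lt_floor_add_one _⟩, ⟨Int.floor_le _, Int.lt_floor_add_one _⟩⟩
  have h : (t10_sq N ⌊N * z.re⌋ ⌊N * z.im⌋ ∩ t10_A D d).Nonempty := ⟨z, h0, hz⟩
  unfold t10_U
  rw [dif_pos h, Metric.mem_ball]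
  exact t10_sq_dist hN h0 h.some_mem.1

/-- the limit of the covering sums -/
theorem t10_lim (M : ℝ) (C d t : ℝ) (hd : 0 < d) (ht : 7 / 4 < t) (m0 : ℕ) (hm0 : 1 ≤ m0) :
    Tendsto (fun m : ℕ => (2 * M * ((m + m0 : ℕ) : ℝ)) ^ 2 * ((4 / ((m + m0 : ℕ) : ℝ)) ^ t *
      (C * ((2 / ((m + m0 : ℕ) : ℝ)) / d) ^ (1 / 4 : ℝ)))) atTop (𝓝 0) := by
  have h1 : Tendsto (fun m : ℕ => ((m + m0 : ℕ) : ℝ)) atTop atTop :=
    tendsto_natCast_atTop_atTop.comp (tendsto_add_atTop_nat m0)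
  have h2 : Tendsto (fun x : ℝ => x ^ (-(t - 7 / 4))) atTop (𝓝 0) :=
    tendsto_rpow_neg_atTop (by linarith)
  have h3 := (h2.comp h1).const_mul ((2 * M) ^ 2 * (4 ^ t * (C * (2 / d) ^ (1 / 4 : ℝ))))
  rw [mul_zero] at h3
  refine h3.congr ?_
  intro m
  have hpos : (0 : ℝ) < ((m + m0 : ℕ) : ℝ) := by
    have : 0 < m + m0 := by omega
    exact_mod_cast this
  set x : ℝ := ((m + m0 : ℕ) : ℝ) with hx
  simp only [Function.comp]
  rw [← hx]
  have e1 : (4 / x) ^ t = 4 ^ t * x ^ (-t) := by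
    rw [Real.div_rpow (by norm_num) hpos.le, Real.rpow_neg hpos.le]
    ring
  have e2 : ((2 / x) / d) ^ (1 / 4 : ℝ) = (2 / d) ^ (1 / 4 : ℝ) * x ^ (-(1 / 4) : ℝ) := by
    have : (2 / x) / d = (2 / d) / x := by
      field_simp
    rw [this, Real.div_rpow (by positivity) hpos.le, Real.rpow_neg hpos.le]
    ring
  have e3 : x ^ (-(t - 7 / 4)) = x ^ (2 : ℝ) * (x ^ (-t) * x ^ (-(1 / 4) : ℝ)) := by
    rw [← Real.rpow_add hpos, ← Real.rpow_add hpos]
    congr 1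
    ring
  rw [e1, e2, e3, Real.rpow_two]
  ring

/-- one scale -/
theorem t10_one [MeasurableSpace (NonemptyCompacts ℂ)] [BorelSpace (NonemptyCompacts ℂ)]
    {D : Set ℂ} {M : ℕ} (hM : ∀ z ∈ D, |z.re| < M ∧ |z.im| < M) {C d : ℝ} (hC : 0 < C)
    (hd : 0 < d) {μs : ℕ → ProbabilityMeasure (NonemptyCompacts ℂ)}
    {μ : ProbabilityMeasure (NonemptyCompacts ℂ)} (hμ : Tendsto μs atTop (𝓝 μ))
    (hp : ∀ (z : ℂ) (r : ℝ), 0 < r → r ≤ d → Metric.ball z d ⊆ D →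
      ∀ᶠ i in atTop, (μs i : Measure (NonemptyCompacts ℂ))
        {K : NonemptyCompacts ℂ | ((K : Set ℂ) ∩ Metric.ball z r).Nonempty} ≤
          ENNReal.ofReal (C * (r / d) ^ (1 / 4 : ℝ))) {t : ℝ} (ht : 7 / 4 < t) :
    ∀ᵐ K : NonemptyCompacts ℂ ∂(μ : Measure (NonemptyCompacts ℂ)),
      dimH ((K : Set ℂ) ∩ t10_A D d) ≤ ENNReal.ofReal t := by
  obtain ⟨m1, hm1⟩ := exists_nat_gt (2 / d)
  set m0 : ℕ := m1 + 1 with hm0
  have hN : ∀ m : ℕ, (0 : ℝ) < ((m + m0 : ℕ) : ℝ) := by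
    intro m
    have : 0 < m + m0 := by omega
    exact_mod_cast this
  have hNd : ∀ m : ℕ, 2 / ((m + m0 : ℕ) : ℝ) ≤ d := by
    intro m
    rw [div_le_iff₀ (hN m)]
    rw [div_lt_iff₀ hd] at hm1
    have : (m1 : ℝ) ≤ ((m + m0 : ℕ) : ℝ) := by
      have : m1 ≤ m + m0 := by omega
      exact_mod_cast this
    nlinarith
  have hsub : t10_A D d ⊆ D := fun z hz => hz (Metric.mem_ball_self hd)
  refine Pool.Agent.H389R2.Dim.upper_of_tendsto (by linarith) hμ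
    (ι := fun m => Fin (2 * M * (m + m0)) × Fin (2 * M * (m + m0)))
    (fun m i => t10_U D d ((m + m0 : ℕ) : ℝ) ((i.1 : ℕ) - (M * (m + m0) : ℕ) : ℤ)
      ((i.2 : ℕ) - (M * (m + m0) : ℕ) : ℤ))
    (fun m i => t10_U_open _ _ _ _ _)
    (fun m => ENNReal.ofReal (4 / ((m + m0 : ℕ) : ℝ))) ?_ (fun m i => t10_U_ediam _ _ _ _ _)
    ?_ (fun m _ => ENNReal.ofReal (C * ((2 / ((m + m0 : ℕ) : ℝ)) / d) ^ (1 / 4 : ℝ))) ?_ ?_
  · -- the radii tend to zero
    have h1 : Tendsto (fun m : ℕ => ((m + m0 : ℕ) : ℝ)) atTop atTop :=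
      tendsto_natCast_atTop_atTop.comp (tendsto_add_atTop_nat m0)
    have h2 : Tendsto (fun m : ℕ => 4 / ((m + m0 : ℕ) : ℝ)) atTop (𝓝 0) :=
      h1.const_div_atTop 4
    have h3 := ENNReal.tendsto_ofReal h2
    rwa [ENNReal.ofReal_zero] at h3
  · -- covering
    intro m z hz
    obtain ⟨h1, h2⟩ := hM z (hsub hz)
    have hb : ∀ y : ℝ, |y| < M → -((M * (m + m0) : ℕ) : ℤ) ≤ ⌊((m + m0 : ℕ) : ℝ) * y⌋ ∧
        ⌊((m + m0 : ℕ) : ℝ) * y⌋ < ((M * (m + m0) : ℕ) : ℤ) := by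
      intro y hy
      rw [abs_lt] at hy
      have hn := hN m
      constructor
      · rw [Int.le_floor]
        push_cast at hn ⊢
        nlinarith
      · rw [Int.floor_lt]
        push_cast at hn ⊢
        nlinarith
    obtain ⟨h3, h4⟩ := hb _ h1
    obtain ⟨h5, h6⟩ := hb _ h2
    refine Set.mem_iUnion.mpr ⟨(⟨(⌊((m + m0 : ℕ) : ℝ) * z.re⌋ + (M * (m + m0) : ℕ)).toNat, ?_⟩,
      ⟨(⌊((m + m0 : ℕ) : ℝ) * z.im⌋ + (M * (m + m0) : ℕ)).toNat, ?_⟩), ?_⟩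
    · rw [Int.toNat_lt (by omega)]
      have : ((2 * M * (m + m0) : ℕ) : ℤ) = 2 * ((M * (m + m0) : ℕ) : ℤ) := by
        push_cast; ring
      omega
    · rw [Int.toNat_lt (by omega)]
      have : ((2 * M * (m + m0) : ℕ) : ℤ) = 2 * ((M * (m + m0) : ℕ) : ℤ) := by
        push_cast; ring
      omega
    · have hcov := t10_U_cover (N := ((m + m0 : ℕ) : ℝ)) (hN m) hz
      simp only
      rw [Int.toNat_of_nonneg (by omega), Int.toNat_of_nonneg (by omega)]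
      rw [add_sub_cancel_right, add_sub_cancel_right]
      exact hcov
  · -- probabilities
    intro m i
    unfold t10_U
    split_ifs with h
    · exact (hp h.some (2 / ((m + m0 : ℕ) : ℝ)) (div_pos two_pos (hN m)) (hNd m)
        h.some_mem.2).frequently
    · refine (Eventually.of_forall fun n => ?_).frequently
      have : {K : NonemptyCompacts ℂ | ((K : Set ℂ) ∩ ∅).Nonempty} = ∅ := by
        ext K
        simp
      rw [this, measure_empty]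
      exact zero_le
  · -- the sums tend to zero
    have hl := ENNReal.tendsto_ofReal (t10_lim M C d t hd ht m0 (by omega))
    rw [ENNReal.ofReal_zero] at hl
    refine tendsto_of_tendsto_of_tendsto_of_le_of_le tendsto_const_nhds hl
      (fun m => zero_le) (fun m => ?_)
    have hn := hN m
    have ht0 : 0 ≤ t := by linarith
    have h4 : 0 ≤ (4 : ℝ) / ((m + m0 : ℕ) : ℝ) := by positivity
    calc ∑ i : Fin (2 * M * (m + m0)) × Fin (2 * M * (m + m0)),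
          Metric.ediam (t10_U D d ((m + m0 : ℕ) : ℝ) ((i.1 : ℕ) - (M * (m + m0) : ℕ) : ℤ)
            ((i.2 : ℕ) - (M * (m + m0) : ℕ) : ℤ)) ^ t *
            ENNReal.ofReal (C * ((2 / ((m + m0 : ℕ) : ℝ)) / d) ^ (1 / 4 : ℝ))
        ≤ ∑ _i : Fin (2 * M * (m + m0)) × Fin (2 * M * (m + m0)),
          ENNReal.ofReal ((4 / ((m + m0 : ℕ) : ℝ)) ^ t *
            (C * ((2 / ((m + m0 : ℕ) : ℝ)) / d) ^ (1 / 4 : ℝ))) := by
          refine Finset.sum_le_sum fun i _ => ?_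
          have e5 : ENNReal.ofReal ((4 / ((m + m0 : ℕ) : ℝ)) ^ t *
              (C * ((2 / ((m + m0 : ℕ) : ℝ)) / d) ^ (1 / 4 : ℝ))) =
              ENNReal.ofReal (4 / ((m + m0 : ℕ) : ℝ)) ^ t *
                ENNReal.ofReal (C * ((2 / ((m + m0 : ℕ) : ℝ)) / d) ^ (1 / 4 : ℝ)) := by
            rw [ENNReal.ofReal_mul (by positivity), ENNReal.ofReal_rpow_of_nonneg h4 ht0]
          rw [e5]
          gcongr
          exact t10_U_ediam _ _ _ _ _
      _ ≤ ENNReal.ofReal ((2 * M * ((m + m0 : ℕ) : ℝ)) ^ 2 * ((4 / ((m + m0 : ℕ) : ℝ)) ^ t *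
            (C * ((2 / ((m + m0 : ℕ) : ℝ)) / d) ^ (1 / 4 : ℝ)))) := by
          have e : (2 * (M : ℝ) * ((m + m0 : ℕ) : ℝ)) ^ 2 =
              ((2 * M * (m + m0) * (2 * M * (m + m0)) : ℕ) : ℝ) := by
            push_cast
            ring
          rw [Finset.sum_const, Finset.card_univ, Fintype.card_prod, Fintype.card_fin,
            nsmul_eq_mul, e, ENNReal.ofReal_mul (Nat.cast_nonneg _), ENNReal.ofReal_natCast]

/-- upper bound for the dimension inside the domain -/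
theorem t10_main [MeasurableSpace (NonemptyCompacts ℂ)] [BorelSpace (NonemptyCompacts ℂ)]
    {D : Set ℂ} (hD : IsOpen D) {M : ℕ} (hM : ∀ z ∈ D, |z.re| < M ∧ |z.im| < M) {C : ℝ}
    (hC : 0 < C) {μs : ℕ → ProbabilityMeasure (NonemptyCompacts ℂ)}
    {μ : ProbabilityMeasure (NonemptyCompacts ℂ)} (hμ : Tendsto μs atTop (𝓝 μ))
    (hp : ∀ (z : ℂ) (r d : ℝ), 0 < r → r ≤ d → Metric.ball z d ⊆ D →
      ∀ᶠ i in atTop, (μs i : Measure (NonemptyCompacts ℂ))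
        {K : NonemptyCompacts ℂ | ((K : Set ℂ) ∩ Metric.ball z r).Nonempty} ≤
          ENNReal.ofReal (C * (r / d) ^ (1 / 4 : ℝ))) :
    ∀ᵐ K : NonemptyCompacts ℂ ∂(μ : Measure (NonemptyCompacts ℂ)),
      dimH ((K : Set ℂ) ∩ D) ≤ 7 / 4 := by
  have h1 : ∀ n j : ℕ, ∀ᵐ K : NonemptyCompacts ℂ ∂(μ : Measure (NonemptyCompacts ℂ)),
      dimH ((K : Set ℂ) ∩ t10_A D (1 / ((n : ℝ) + 1))) ≤
        ENNReal.ofReal (7 / 4 + 1 / ((j : ℝ) + 1)) := by
    intro n j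
    have hd : 0 < 1 / ((n : ℝ) + 1) := by positivity
    have hj : 0 < 1 / ((j : ℝ) + 1) := by positivity
    exact t10_one hM hC hd hμ (fun z r hr hrd hb => hp z r _ hr hrd hb) (by linarith)
  have h2 : ∀ᵐ K : NonemptyCompacts ℂ ∂(μ : Measure (NonemptyCompacts ℂ)), ∀ n j : ℕ,
      dimH ((K : Set ℂ) ∩ t10_A D (1 / ((n : ℝ) + 1))) ≤
        ENNReal.ofReal (7 / 4 + 1 / ((j : ℝ) + 1)) := by
    rw [ae_all_iff]
    intro n
    rw [ae_all_iff]
    intro j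
    exact h1 n j
  filter_upwards [h2] with K hK
  have hsub : (K : Set ℂ) ∩ D ⊆ ⋃ n : ℕ, (K : Set ℂ) ∩ t10_A D (1 / ((n : ℝ) + 1)) := by
    rintro z ⟨hzK, hzD⟩
    obtain ⟨ε, hε, hb⟩ := Metric.isOpen_iff.mp hD z hzD
    obtain ⟨n, hn⟩ := exists_nat_one_div_lt hε
    exact Set.mem_iUnion.mpr ⟨n, hzK, (Metric.ball_subset_ball hn.le).trans hb⟩
  refine (dimH_mono hsub).trans ?_
  rw [dimH_iUnion]
  refine iSup_le fun n => ?_
  have hlim : Tendsto (fun j : ℕ => ENNReal.ofReal (7 / 4 + 1 / ((j : ℝ) + 1))) atTop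
      (𝓝 (ENNReal.ofReal (7 / 4 + 0))) :=
    ENNReal.tendsto_ofReal (tendsto_const_nhds.add tendsto_one_div_add_atTop_nhds_zero_nat)
  have h74 : ENNReal.ofReal (7 / 4 + 0) = 7 / 4 := by
    rw [add_zero, ENNReal.ofReal_div_of_pos (by norm_num)]
    norm_num
  rw [h74] at hlim
  exact ge_of_tendsto' hlim (fun j => hK n j)

end H934F
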