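import Pool.Agent.H934R2.Expl.Model
import Pool.Agent.H12R2.Sep.Defs

/-!
Interface between the two-arm estimates at `p = 1/2` and the dimension of the limits of the
exploration path: the two statements which are used.
-/

namespace H934F

open H974 H12S H934E Finset

/-- Annulus bound: an open arm and a dual arm from the box of radius `r` around `(c1,c2)` to
distance `R`, both inside the (arbitrary) random edge set `S`. -/
def St_A : Prop := ∃ C : ℝ, 0 < C ∧ ∀ r R : ℕ, 1 ≤ r → r ≤ R → ∀ (c1 c2 : ℤ) (S : Finset Edg),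
  PQ (1/2) S (fun F => Crs c1 c2 r R ↑F ∧ DCrs c1 c2 r R (↑(S \ F) : Set Edg)) ≤
    C * ((r : ℝ) / R) ^ (1/4 : ℝ)

/-- Separated two arms of the vertex `(0,0)` and of the adjacent face `cface (0,0) s`: the vertex
is joined to the left side of `[-3m,m] × [-m,m]` by an open path in this rectangle, and the face is
joined to the column of faces `3m` by a dual path which crosses closed edges of
`[-m,3m] × [-m,m]` only. -/
def SepArms (s : Bool × Bool) (m : ℕ) (F : Finset Edg) : Prop :=
  (∃ y : Vtx, y.1 = -(3 * m : ℕ) ∧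
      Reach (↑F ∩ ↑(RE (-(3 * m : ℕ)) (m : ℕ) (-(m : ℕ)) (m : ℕ))) (0, 0) y) ∧
    ∃ g : Vtx, g.1 = (3 * m : ℕ) ∧
      DReach (↑(RE (-(m : ℕ)) (3 * m : ℕ) (-(m : ℕ)) (m : ℕ) \ F) : Set Edg)
        (cface (0, 0) s) g

/-- Lower bound for the separated two-arm probability (some corner type is enough). -/
def St_L : Prop := ∃ (c : ℝ) (s : Bool × Bool), 0 < c ∧ ∀ m : ℕ, 1 ≤ m →
  c * (m : ℝ) ^ (-(1/4) : ℝ) ≤
    PQ (1/2) (RE (-(3 * m : ℕ)) (3 * m : ℕ) (-(m : ℕ)) (m : ℕ)) (SepArms s m)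

end H934F
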