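import Pool.Agent.H934R3.D74.Props

/-!
T1a, T1b, T1c: Harris' inequality for events which are monotone in a part of the edges, and the
gluing of the two arms to the crossings of the two strips.
-/

namespace H934F

open H974 H973 H12S H934E Finset

theorem t1_union {S U : Finset Edg} (hU : U ⊆ S) (A : Finset Edg → Prop) :
    Q S A = Ex (fun _ => (1/2 : ℝ)) (S \ U)
      (fun G => Ex (fun _ => (1/2 : ℝ)) U (fun H => ind (A (G ∪ H)))) := by
  have h1 : S = (S \ U) ∪ U := by rw [Finset.sdiff_union_of_subset hU]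
  have h2 : Disjoint (S \ U) U := Finset.sdiff_disjoint
  unfold Q Pr
  conv_lhs => rw [h1]
  rw [Ex_union h2]

/-- General gluing inequality: the conditional version integrates. -/
theorem t1_aux {S U : Finset Edg} (hU : U ⊆ S) {A B : Finset Edg → Prop}
    (hB : ∀ F, B F ↔ B (F ∩ U))
    (hH : ∀ G, G ⊆ S \ U →
      Pr (fun _ => (1/2 : ℝ)) U (fun H => A (G ∪ H)) * Pr (fun _ => (1/2 : ℝ)) U B ≤
        Pr (fun _ => (1/2 : ℝ)) U (fun H => A (G ∪ H) ∧ B H)) :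
    Q S A * Q S B ≤ Q S (fun F => A F ∧ B F) := by
  have hBl : Q S B = Pr (fun _ => (1/2 : ℝ)) U B := Pr_local hU (fun F _ => hB F)
  have hGB : ∀ G, G ⊆ S \ U → ∀ H, H ⊆ U → (B (G ∪ H) ↔ B H) := by
    intro G hG H hH
    rw [hB (G ∪ H), hB H]
    have e : (G ∪ H) ∩ U = H ∩ U := by
      ext x
      simp only [Finset.mem_inter, Finset.mem_union]
      constructor
      · rintro ⟨h | h, h2⟩
        · exact absurd h2 (Finset.mem_sdiff.mp (hG h)).2
        · exact ⟨h, h2⟩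
      · rintro ⟨h, h2⟩; exact ⟨Or.inr h, h2⟩
    rw [e]
  rw [hBl, t1_union hU A, t1_union hU (fun F => A F ∧ B F), ← Ex_mul_right]
  apply Ex_mono okhalf
  intro G hG
  refine (hH G hG).trans (le_of_eq ?_)
  unfold Pr
  apply Ex_congr
  intro H hH
  apply ind_congr
  rw [hGB G hG H hH]

theorem t1a : St_T1a := by
  intro S U A B hU hA hB hBl
  apply t1_aux hU hBl
  intro G hG
  apply Pr_harris okhalf
  · intro H K hHK hK hAH
    refine hA (G ∪ H) (G ∪ K) ?_ ?_ ?_ hAH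
    · exact Finset.union_subset (hG.trans Finset.sdiff_subset) ((hHK.trans hK).trans hU)
    · exact Finset.union_subset_union_right hHK
    · intro e he
      rw [Finset.mem_union] at he ⊢
      rcases he with he | he
      · exact Or.inl (Finset.mem_union_left _ he)
      · exact Or.inr (hK he)
  · intro H K hHK _ hBH
    exact hB H K hHK hBH

theorem t1_decr {U : Finset Edg} {A B : Finset Edg → Prop}
    (hA : IncrE U (fun F => ¬ A F)) (hB : IncrE U (fun F => ¬ B F)) :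
    Pr (fun _ => (1/2 : ℝ)) U A * Pr (fun _ => (1/2 : ℝ)) U B ≤
      Pr (fun _ => (1/2 : ℝ)) U (fun F => A F ∧ B F) := by
  have h := Pr_harris_decr okhalf hA hB
  rw [Pr_not] at h
  have h2 : Pr (fun _ => (1/2 : ℝ)) U B = Pr (fun _ => (1/2 : ℝ)) U (fun F => ¬ A F ∧ B F) +
      Pr (fun _ => (1/2 : ℝ)) U (fun F => A F ∧ B F) := by
    unfold Pr
    rw [← Ex_add]
    apply Ex_congr
    intro F _
    rw [ind_and, ind_and, ind_not]
    ring
  nlinarith [h, h2]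

theorem t1b : St_T1b := by
  intro S U A B hU hA hB hBl
  apply t1_aux hU hBl
  intro G hG
  apply t1_decr
  · intro H K hHK hK hAH hAK
    apply hAH
    refine hA (G ∪ K) (G ∪ H) ?_ ?_ ?_ hAK
    · exact Finset.union_subset (hG.trans Finset.sdiff_subset) (hK.trans hU)
    · exact Finset.union_subset_union_right hHK
    · intro e he
      rw [Finset.mem_union] at he ⊢
      rcases he with he | he
      · exact Or.inl (Finset.mem_union_left _ he)
      · exact Or.inr (hK he)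
  · intro H K hHK _ hBH hBK
    exact hBH (hB H K hHK hBK)

theorem t1_CR {h : ℤ} (hh : 2 ≤ h) {F : Finset Edg}
    (hF : ¬ LRc (3 * h + 1) (5 * h) 0 (7 * h) F) : CR h F := by
  set W : Vtx → Prop := fun v => ∃ y, (0 ≤ y ∧ y ≤ 7 * h) ∧
    Reach (↑F ∩ ↑(LRE (3 * h + 1) (5 * h) 0 (7 * h))) (3 * h + 1, y) v with hW
  have hL : ∀ y, 0 ≤ y → y ≤ 7 * h → W (3 * h + 1, y) :=
    fun y h3 h4 => ⟨y, ⟨h3, h4⟩, Reach.refl _ _⟩
  have hR : ∀ y, 0 ≤ y → y ≤ 7 * h → ¬ W (5 * h, y) := by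
    rintro y h3 h4 ⟨y0, h5, h6⟩
    exact hF ⟨y0, y, h5, ⟨h3, h4⟩, h6⟩
  obtain ⟨x, x', hx, hx', hr⟩ := dual_crossing (by omega) (by omega) W hL hR
  refine ⟨x, x', hx, hx', ?_⟩
  refine DReach.mono ?_ (by simpa using hr)
  rintro e ⟨he1, he2⟩
  rw [Finset.coe_sdiff]
  refine ⟨he2, ?_⟩
  intro heF
  apply he1
  constructor
  · rintro ⟨y, h3, h4⟩
    exact ⟨y, h3, h4.trans (Adj.reach ⟨e, ⟨heF, he2⟩, Or.inl ⟨rfl, rfl⟩⟩)⟩
  · rintro ⟨y, h3, h4⟩
    exact ⟨y, h3, h4.trans (Adj.reach ⟨e, ⟨heF, he2⟩, Or.inr ⟨rfl, rfl⟩⟩)⟩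

theorem t1c : St_T1c := by
  intro h hh S hS s v hv
  have hv' : (-h ≤ v.1 ∧ v.1 ≤ h) ∧ (3 * h ≤ v.2 ∧ v.2 ≤ 5 * h) := by
    unfold core at hv
    rw [Finset.mem_product, Finset.mem_Icc, Finset.mem_Icc] at hv
    exact hv
  have hd0 := dlt_pos
  -- the two strips
  have hUL : TBE (-(5 * h)) (-(3 * h) - 1) 0 (7 * h) ⊆ S := by
    refine (TBE_subset_RE.trans (RE_sub_ES ?_)).trans hS
    intro x y h1 h2 h3 h4
    unfold HA2
    rw [Finset.mem_filter, Finset.mem_product, Finset.mem_Icc, Finset.mem_Icc]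
    dsimp only
    refine ⟨⟨⟨by omega, by omega⟩, ⟨by omega, by omega⟩⟩, Or.inl (by omega)⟩
  have hUR : LRE (3 * h + 1) (5 * h) 0 (7 * h) ⊆ S := by
    refine (LRE_subset_RE.trans (RE_sub_ES ?_)).trans hS
    intro x y h1 h2 h3 h4
    unfold HA2
    rw [Finset.mem_filter, Finset.mem_product, Finset.mem_Icc, Finset.mem_Icc]
    dsimp only
    refine ⟨⟨⟨by omega, by omega⟩, ⟨by omega, by omega⟩⟩, Or.inr (Or.inl (by omega))⟩
  -- disjointness
  have dL : ∀ e ∈ TBE (-(5 * h)) (-(3 * h) - 1) 0 (7 * h),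
      e ∉ RE (v.1 - 2 * h) (v.1 + 6 * h) (v.2 - 2 * h) (v.2 + 2 * h) := by
    rintro ⟨x, y, _ | _⟩ h1 h2
    · simp only [mem_TBE_false, mem_RE_false] at h1 h2; omega
    · simp only [mem_TBE_true, mem_RE_true] at h1 h2; omega
  have dR : ∀ e ∈ LRE (3 * h + 1) (5 * h) 0 (7 * h),
      e ∉ RE (v.1 - 6 * h) (v.1 + 2 * h) (v.2 - 2 * h) (v.2 + 2 * h) := by
    rintro ⟨x, y, _ | _⟩ h1 h2
    · simp only [mem_LRE_false, mem_RE_false] at h1 h2; omega
    · simp only [mem_LRE_true, mem_RE_true] at h1 h2; omega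
  have dLR : ∀ e ∈ LRE (3 * h + 1) (5 * h) 0 (7 * h),
      e ∉ TBE (-(5 * h)) (-(3 * h) - 1) 0 (7 * h) := by
    rintro ⟨x, y, _ | _⟩ h1 h2
    · simp only [mem_LRE_false, mem_TBE_false] at h1 h2; omega
    · simp only [mem_LRE_true, mem_TBE_true] at h1 h2; omega
  -- probabilities of the crossings
  have pL : dlt ≤ Q S (CL h) := by
    have e : Q S (CL h) = H974.hh (1/2) (7 * h - 0) (-(3 * h) - 1 - -(5 * h)) :=
      pr_TBc (1/2) hUL
    rw [e]
    exact rswL (m := h - 1) (by omega) (by omega) (by omega) (by omega)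
  have pR : dlt ≤ Q S (CR h) := by
    have e1 : Q S (LRc (3 * h + 1) (5 * h) 0 (7 * h)) =
        H974.hh (1/2) (5 * h - (3 * h + 1)) (7 * h - 0) := pr_LRc (1/2) hUR
    have e2 := hh_dual (q := 1/2) (w := 5 * h - (3 * h + 1)) (h := 7 * h - 0) (by omega)
      (by omega)
    have e3 : (1:ℝ) - 1/2 = 1/2 := by norm_num
    rw [e3] at e2
    have e4 := rswL (m := h - 1) (w := 7 * h - 0 + 1) (h := 5 * h - (3 * h + 1) - 1)
      (by omega) (by omega) (by omega) (by omega)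
    have e5 : Q S (fun F => ¬ LRc (3 * h + 1) (5 * h) 0 (7 * h) F) ≤ Q S (CR h) :=
      Q_mono (fun F _ hF => t1_CR hh hF)
    have e6 : Q S (fun F => ¬ LRc (3 * h + 1) (5 * h) 0 (7 * h) F) =
        1 - Q S (LRc (3 * h + 1) (5 * h) 0 (7 * h)) := Pr_not _ _
    rw [e6, e1, e2] at e5
    linarith
  -- first gluing
  have g1 : Q S (E2 s h v) * Q S (CL h) ≤ Q S (fun F => E2 s h v F ∧ CL h F) := by
    apply t1a S (TBE (-(5 * h)) (-(3 * h) - 1) 0 (7 * h)) (E2 s h v) (CL h) hUL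
    · rintro F G _ hFG hGF ⟨⟨y, hy, hr⟩, ⟨g, hg, hd⟩⟩
      refine ⟨⟨y, hy, hr.mono (Set.inter_subset_inter_left _ (by exact_mod_cast hFG))⟩,
        ⟨g, hg, hd.mono ?_⟩⟩
      intro e he
      rw [Finset.mem_coe, Finset.mem_sdiff] at he ⊢
      refine ⟨he.1, fun heG => ?_⟩
      rcases Finset.mem_union.mp (hGF heG) with h1 | h1
      · exact he.2 h1
      · exact dL e h1 he.1
    · intro F G hFG hF
      exact TBc.mono hFG hF
    · intro F
      exact TBc_local (Finset.Subset.refl _)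
  -- second gluing
  have g2 : Q S (fun F => E2 s h v F ∧ CL h F) * Q S (CR h) ≤
      Q S (fun F => (E2 s h v F ∧ CL h F) ∧ CR h F) := by
    apply t1b S (LRE (3 * h + 1) (5 * h) 0 (7 * h)) (fun F => E2 s h v F ∧ CL h F) (CR h) hUR
    · rintro F G _ hGF hFG ⟨⟨⟨y, hy, hr⟩, ⟨g, hg, hd⟩⟩, ⟨x, x', hx, hx', hc⟩⟩
      refine ⟨⟨⟨y, hy, hr.mono ?_⟩, ⟨g, hg, hd.mono ?_⟩⟩, ⟨x, x', hx, hx', hc.mono ?_⟩⟩
      · rintro e ⟨he1, he2⟩
        refine ⟨?_, he2⟩
        rcases Finset.mem_union.mp (hFG he1) with h1 | h1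
        · exact h1
        · exact absurd he2 (dR e h1)
      · intro e he
        rw [Finset.mem_coe, Finset.mem_sdiff] at he ⊢
        exact ⟨he.1, fun heG => he.2 (hGF heG)⟩
      · rintro e ⟨he1, he2⟩
        refine ⟨?_, he2⟩
        rcases Finset.mem_union.mp (hFG he1) with h1 | h1
        · exact h1
        · exact absurd he2 (dLR e h1)
    · rintro F G hFG ⟨x, x', hx, hx', hc⟩
      refine ⟨x, x', hx, hx', hc.mono ?_⟩
      intro e he
      rw [Finset.mem_coe, Finset.mem_sdiff] at he ⊢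
      exact ⟨he.1, fun heF => he.2 (hFG heF)⟩
    · intro F
      have e : LRE (3 * h + 1) (5 * h) 0 (7 * h) \ F =
          LRE (3 * h + 1) (5 * h) 0 (7 * h) \ (F ∩ LRE (3 * h + 1) (5 * h) 0 (7 * h)) := by
        ext e
        simp only [Finset.mem_sdiff, Finset.mem_inter]
        tauto
      unfold CR
      rw [← e]
  have q0 : 0 ≤ Q S (E2 s h v) := Q_nonneg _ _
  have q1 : 0 ≤ Q S (fun F => E2 s h v F ∧ CL h F) := Q_nonneg _ _
  calc dlt * dlt * Q S (E2 s h v) = (Q S (E2 s h v) * dlt) * dlt := by ring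
    _ ≤ (Q S (E2 s h v) * Q S (CL h)) * dlt :=
        mul_le_mul_of_nonneg_right (mul_le_mul_of_nonneg_left pL q0) hd0.le
    _ ≤ Q S (fun F => E2 s h v F ∧ CL h F) * dlt := mul_le_mul_of_nonneg_right g1 hd0.le
    _ ≤ Q S (fun F => E2 s h v F ∧ CL h F) * Q S (CR h) := mul_le_mul_of_nonneg_left pR q1
    _ ≤ Q S (fun F => (E2 s h v F ∧ CL h F) ∧ CR h F) := g2
    _ ≤ Q S (fun F => E2 s h v F ∧ CL h F ∧ CR h F) :=
        Q_mono (fun F _ hF => ⟨hF.1.1, hF.1.2, hF.2⟩)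

end H934F
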