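import Pool.Agent.H934R3.D74.Props

/-!
T2: one-point lower bound, by translation of the separated two arms.
-/

namespace H934F

open H974 H973 H12S H934E Finset

theorem t2_dadj (a b : ℤ) {G : Set Edg} {u v : Vtx} (h : DAdj G u v) :
    DAdj ((trl a b).φ '' G) ((trl a b).ψ u) ((trl a b).ψ v) := by
  obtain ⟨e, he, hc⟩ := h
  refine ⟨(trl a b).φ e, Set.mem_image_of_mem _ he, ?_⟩
  have h1 : dsrc ((trl a b).φ e) = (trl a b).ψ (dsrc e) := by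
    obtain ⟨x, y, _ | _⟩ := e
    · rw [trl_φ, dsrc_false, dsrc_false, trl_ψ, show x + a - 1 = x - 1 + a by ring]
    · rw [trl_φ, dsrc_true, dsrc_true, trl_ψ, show y + b - 1 = y - 1 + b by ring]
  have h2 : dtgt ((trl a b).φ e) = (trl a b).ψ (dtgt e) := by
    obtain ⟨x, y, b'⟩ := e
    simp only [trl_φ, dtgt_mk, trl_ψ]
  rw [h1, h2]
  rcases hc with ⟨h3, h4⟩ | ⟨h3, h4⟩
  · left; rw [h3, h4]; exact ⟨rfl, rfl⟩
  · right; rw [h3, h4]; exact ⟨rfl, rfl⟩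

theorem t2_dreach (a b : ℤ) {G : Set Edg} {u v : Vtx} (h : DReach G u v) :
    DReach ((trl a b).φ '' G) ((trl a b).ψ u) ((trl a b).ψ v) := by
  induction h with
  | refl => exact DReach.refl _ _
  | tail _ hs ih => exact ih.trans (t2_dadj a b hs).reach

theorem t2_cface (v : Vtx) (s : Bool × Bool) :
    (trl v.1 v.2).ψ (cface (0, 0) s) = cface v s := by
  obtain ⟨s1, s2⟩ := s
  cases s1 <;> cases s2 <;> simp [cface, trl] <;> (try constructor) <;> ring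

theorem t2_local {s : Bool × Bool} {h : ℤ} (_hh : 1 ≤ h) {v : Vtx} (F : Finset Edg) :
    E2 s h v F ↔ E2 s h v
      (F ∩ RE (v.1 - 6 * h) (v.1 + 6 * h) (v.2 - 2 * h) (v.2 + 2 * h)) := by
  have s1 : RE (v.1 - 6 * h) (v.1 + 2 * h) (v.2 - 2 * h) (v.2 + 2 * h) ⊆
      RE (v.1 - 6 * h) (v.1 + 6 * h) (v.2 - 2 * h) (v.2 + 2 * h) := by
    rintro ⟨x, y, _ | _⟩ h1
    · simp only [mem_RE_false] at h1 ⊢; omega
    · simp only [mem_RE_true] at h1 ⊢; omega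
  have s2 : RE (v.1 - 2 * h) (v.1 + 6 * h) (v.2 - 2 * h) (v.2 + 2 * h) ⊆
      RE (v.1 - 6 * h) (v.1 + 6 * h) (v.2 - 2 * h) (v.2 + 2 * h) := by
    rintro ⟨x, y, _ | _⟩ h1
    · simp only [mem_RE_false] at h1 ⊢; omega
    · simp only [mem_RE_true] at h1 ⊢; omega
  unfold E2 ArmL ArmR
  rw [coe_inter_eq s1]
  have e : RE (v.1 - 2 * h) (v.1 + 6 * h) (v.2 - 2 * h) (v.2 + 2 * h) \ F =
      RE (v.1 - 2 * h) (v.1 + 6 * h) (v.2 - 2 * h) (v.2 + 2 * h) \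
        (F ∩ RE (v.1 - 6 * h) (v.1 + 6 * h) (v.2 - 2 * h) (v.2 + 2 * h)) := by
    ext e
    simp only [Finset.mem_sdiff, Finset.mem_inter]
    constructor
    · rintro ⟨h1, h2⟩; exact ⟨h1, fun h3 => h2 h3.1⟩
    · rintro ⟨h1, h2⟩; exact ⟨h1, fun h3 => h2 ⟨h3, s2 h1⟩⟩
  rw [← e]

theorem t2_trl {s : Bool × Bool} {h : ℤ} {m : ℕ} (hm : (m : ℤ) = 2 * h) (v : Vtx)
    {F : Finset Edg} (hF : SepArms s m F) : E2 s h v ((trl v.1 v.2).mp F) := by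
  obtain ⟨⟨y, hy, hr⟩, ⟨g, hg, hd⟩⟩ := hF
  push_cast at hy hr hg hd
  rw [hm] at hy hr hg hd
  constructor
  · refine ⟨(trl v.1 v.2).ψ y, ?_, ?_⟩
    · obtain ⟨y1, y2⟩ := y
      rw [trl_ψ]
      simp only at hy ⊢
      rw [hy]; ring
    · have h1 := (trl v.1 v.2).reach hr
      rw [LSym.image_inter, trl_RE] at h1
      have e1 : -(3 * (2 * h)) + v.1 = v.1 - 6 * h := by ring
      have e2 : 2 * h + v.1 = v.1 + 2 * h := by ring
      have e3 : -(2 * h) + v.2 = v.2 - 2 * h := by ring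
      have e4 : 2 * h + v.2 = v.2 + 2 * h := by ring
      have e5 : (trl v.1 v.2).ψ (0, 0) = v := by simp
      rw [e1, e2, e3, e4, e5] at h1
      exact h1
  · refine ⟨(trl v.1 v.2).ψ g, ?_, ?_⟩
    · obtain ⟨y1, y2⟩ := g
      rw [trl_ψ]
      simp only at hg ⊢
      rw [hg]; ring
    · have h1 := t2_dreach v.1 v.2 hd
      rw [← Finset.coe_sdiff, ← LSym.coe_mp, LSym.mp_sdiff, trl_RE, t2_cface] at h1
      have e1 : 3 * (2 * h) + v.1 = v.1 + 6 * h := by ring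
      have e2 : -(2 * h) + v.1 = v.1 - 2 * h := by ring
      have e3 : -(2 * h) + v.2 = v.2 - 2 * h := by ring
      have e4 : 2 * h + v.2 = v.2 + 2 * h := by ring
      rw [e1, e2, e3, e4] at h1
      exact h1

theorem t2 : St_T2 := by
  rintro ⟨c, s, hc, hL⟩
  refine ⟨c * (2:ℝ) ^ (-(1/4) : ℝ), s, by positivity, ?_⟩
  intro h hh v S hS
  set m : ℕ := (2 * h).toNat with hmdef
  have hm : (m : ℤ) = 2 * h := Int.toNat_of_nonneg (by omega)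
  have hm1 : 1 ≤ m := by omega
  have h1 := hL m hm1
  have hmr : (m : ℝ) = 2 * (h : ℝ) := by exact_mod_cast hm
  have hh0 : (0:ℝ) ≤ (h : ℝ) := by exact_mod_cast (by omega : (0:ℤ) ≤ h)
  rw [hmr, Real.mul_rpow (by norm_num) hh0, ← mul_assoc] at h1
  refine h1.trans ?_
  have e1 : Q S (E2 s h v) =
      Q (RE (v.1 - 6 * h) (v.1 + 6 * h) (v.2 - 2 * h) (v.2 + 2 * h)) (E2 s h v) :=
    Pr_local hS (fun F _ => t2_local hh F)
  have e2 : RE (v.1 - 6 * h) (v.1 + 6 * h) (v.2 - 2 * h) (v.2 + 2 * h) =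
      (trl v.1 v.2).mp (RE (-(3 * m : ℕ)) (3 * m : ℕ) (-(m : ℕ)) (m : ℕ)) := by
    rw [trl_RE]
    push_cast
    rw [hm]
    congr 1 <;> ring
  rw [e1, e2]
  have e3 := LSym.pr (trl v.1 v.2) (1/2) (RE (-(3 * m : ℕ)) (3 * m : ℕ) (-(m : ℕ)) (m : ℕ))
    (E2 s h v)
  unfold Q
  rw [e3]
  exact Pr_mono okhalf (fun F _ hF => t2_trl hm v hF)

end H934F
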