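import Pool.Agent.H934R3.D74.Props
import Pool.Agent.H974R2.Static

/-!
Project D74, task T12: second moment lower bound for the probability to meet a disc (lattice).
-/

namespace H934F

open H974 H973 H12S H934E Finset

/-- The box of radius `r` around `z`. -/
noncomputable def t12_B (z : Vtx) (r : ℤ) : Finset Vtx :=
  Finset.Icc (z.1 - r) (z.1 + r) ×ˢ Finset.Icc (z.2 - r) (z.2 + r)

theorem t12_mem {z v : Vtx} {r : ℤ} : v ∈ t12_B z r ↔ nd v z ≤ r := by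
  unfold t12_B nd
  rw [Finset.mem_product, Finset.mem_Icc, Finset.mem_Icc, max_le_iff, abs_le, abs_le]
  constructor
  · rintro ⟨⟨h1, h2⟩, ⟨h3, h4⟩⟩
    exact ⟨⟨by linarith, by linarith⟩, ⟨by linarith, by linarith⟩⟩
  · rintro ⟨⟨h1, h2⟩, ⟨h3, h4⟩⟩
    exact ⟨⟨by linarith, by linarith⟩, ⟨by linarith, by linarith⟩⟩

theorem t12_card {z : Vtx} {r : ℤ} (hr : 0 ≤ r) : ((t12_B z r).card : ℝ) = (2 * (r : ℝ) + 1) ^ 2 := by
  unfold t12_B
  rw [Finset.card_product, Int.card_Icc, Int.card_Icc]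
  have e1 : z.1 + r + 1 - (z.1 - r) = 2 * r + 1 := by ring
  have e2 : z.2 + r + 1 - (z.2 - r) = 2 * r + 1 := by ring
  rw [e1, e2]
  have h : (((2 * r + 1).toNat : ℕ) : ℝ) = 2 * (r : ℝ) + 1 := by
    have : ((2 * r + 1).toNat : ℤ) = 2 * r + 1 := Int.toNat_of_nonneg (by omega)
    have h2 : (((2 * r + 1).toNat : ℤ) : ℝ) = ((2 * r + 1 : ℤ) : ℝ) := by rw [this]
    push_cast at h2
    simpa using h2
  push_cast
  rw [h]
  ring

theorem t12_sphere (v : Vtx) (k : ℤ) (hk : 0 ≤ k) (B : Finset Vtx) :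
    ((B.filter (fun w => nd v w = k)).card : ℝ) ≤ 12 * ((max k 1 : ℤ) : ℝ) := by
  have hsub : B.filter (fun w => nd v w = k) ⊆
      (({v.1 - k, v.1 + k} : Finset ℤ) ×ˢ Finset.Icc (v.2 - k) (v.2 + k)) ∪
      (Finset.Icc (v.1 - k) (v.1 + k) ×ˢ ({v.2 - k, v.2 + k} : Finset ℤ)) := by
    intro w hw
    rw [Finset.mem_filter] at hw
    obtain ⟨_, hw⟩ := hw
    unfold nd at hw
    have h1 : |v.1 - w.1| ≤ k := hw ▸ le_max_left _ _
    have h2 : |v.2 - w.2| ≤ k := hw ▸ le_max_right _ _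
    have h1' := abs_le.1 h1
    have h2' := abs_le.1 h2
    rw [Finset.mem_union, Finset.mem_product, Finset.mem_product, Finset.mem_insert,
      Finset.mem_singleton, Finset.mem_insert, Finset.mem_singleton, Finset.mem_Icc, Finset.mem_Icc]
    rcases max_choice |v.1 - w.1| |v.2 - w.2| with h | h
    · left
      rw [h] at hw
      refine ⟨?_, ⟨by linarith [h2'.2], by linarith [h2'.1]⟩⟩
      rcases abs_choice (v.1 - w.1) with h3 | h3 <;> rw [h3] at hw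
      · left; linarith
      · right; linarith
    · right
      rw [h] at hw
      refine ⟨⟨by linarith [h1'.2], by linarith [h1'.1]⟩, ?_⟩
      rcases abs_choice (v.2 - w.2) with h3 | h3 <;> rw [h3] at hw
      · left; linarith
      · right; linarith
  have hc := (Finset.card_le_card hsub).trans (Finset.card_union_le _ _)
  rw [Finset.card_product, Finset.card_product, Int.card_Icc, Int.card_Icc] at hc
  have c2 : ∀ a b : ℤ, ({a, b} : Finset ℤ).card ≤ 2 := fun a b => Finset.card_le_two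
  have e1 : v.1 + k + 1 - (v.1 - k) = 2 * k + 1 := by ring
  have e2 : v.2 + k + 1 - (v.2 - k) = 2 * k + 1 := by ring
  rw [e1, e2] at hc
  have hc2 : (B.filter (fun w => nd v w = k)).card ≤ 4 * (2 * k + 1).toNat := by
    have g1 := Nat.mul_le_mul_right (2 * k + 1).toNat (c2 (v.1 - k) (v.1 + k))
    have g2 := Nat.mul_le_mul_left (2 * k + 1).toNat (c2 (v.2 - k) (v.2 + k))
    omega
  have hc3 : ((B.filter (fun w => nd v w = k)).card : ℤ) ≤ 12 * max k 1 := by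
    have : ((2 * k + 1).toNat : ℤ) = 2 * k + 1 := Int.toNat_of_nonneg (by omega)
    have h3 : ((B.filter (fun w => nd v w = k)).card : ℤ) ≤ 4 * (2 * k + 1) := by
      rw [← this]; exact_mod_cast hc2
    omega
  exact_mod_cast hc3

theorem t12_sum {v z : Vtx} {r : ℤ} (hr : 1 ≤ r) (hv : nd v z ≤ r) :
    ∑ w ∈ t12_B z r, ((max (nd v w) 1 : ℤ) : ℝ) ^ (-(1/4) : ℝ) ≤ 72 * (r : ℝ) ^ (7/4 : ℝ) := by
  have hr0 : (1 : ℝ) ≤ r := by exact_mod_cast hr
  have hmaps : ∀ w ∈ t12_B z r, nd v w ∈ Finset.Icc (0 : ℤ) (2 * r) := by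
    intro w hw
    rw [t12_mem] at hw
    rw [Finset.mem_Icc]
    unfold nd at *
    refine ⟨le_trans (abs_nonneg _) (le_max_left _ _), ?_⟩
    rw [max_le_iff, abs_le, abs_le] at *
    omega
  rw [← Finset.sum_fiberwise_of_maps_to hmaps]
  have hfib : ∀ k ∈ Finset.Icc (0 : ℤ) (2 * r),
      ∑ w ∈ (t12_B z r).filter (fun w => nd v w = k), ((max (nd v w) 1 : ℤ) : ℝ) ^ (-(1/4) : ℝ) ≤
        12 * (2 * (r : ℝ)) ^ (3/4 : ℝ) := by
    intro k hk
    rw [Finset.mem_Icc] at hk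
    have h1 : ∑ w ∈ (t12_B z r).filter (fun w => nd v w = k),
        ((max (nd v w) 1 : ℤ) : ℝ) ^ (-(1/4) : ℝ) =
        ((t12_B z r).filter (fun w => nd v w = k)).card * ((max k 1 : ℤ) : ℝ) ^ (-(1/4) : ℝ) := by
      rw [Finset.sum_congr rfl (g := fun _ => ((max k 1 : ℤ) : ℝ) ^ (-(1/4) : ℝ)), Finset.sum_const,
        nsmul_eq_mul]
      intro w hw
      rw [Finset.mem_filter] at hw
      rw [hw.2]
    rw [h1]
    set m : ℝ := ((max k 1 : ℤ) : ℝ) with hm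
    have hm1 : 1 ≤ m := by rw [hm]; exact_mod_cast le_max_right k 1
    have hm2 : m ≤ 2 * r := by
      rw [hm]
      have : max k 1 ≤ 2 * r := max_le hk.2 (by omega)
      exact_mod_cast this
    have hm0 : 0 < m := by linarith
    calc ((t12_B z r).filter (fun w => nd v w = k)).card * m ^ (-(1/4) : ℝ)
        ≤ (12 * m) * m ^ (-(1/4) : ℝ) :=
          mul_le_mul_of_nonneg_right (t12_sphere v k hk.1 _) (by positivity)
      _ = 12 * m ^ (3/4 : ℝ) := by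
          have : m ^ (3/4 : ℝ) = m * m ^ (-(1/4) : ℝ) := by
            rw [show (3/4 : ℝ) = 1 + (-(1/4)) by norm_num, Real.rpow_add hm0, Real.rpow_one]
          rw [this]; ring
      _ ≤ 12 * (2 * (r : ℝ)) ^ (3/4 : ℝ) :=
          mul_le_mul_of_nonneg_left (Real.rpow_le_rpow hm0.le hm2 (by norm_num)) (by norm_num)
  refine (Finset.sum_le_sum hfib).trans ?_
  rw [Finset.sum_const, nsmul_eq_mul, Int.card_Icc]
  have e1 : (((2 * r + 1 - 0).toNat : ℕ) : ℝ) = 2 * (r : ℝ) + 1 := by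
    have : ((2 * r + 1 - 0).toNat : ℤ) = 2 * r + 1 := by
      rw [Int.toNat_of_nonneg (by omega)]; ring
    have h2 : (((2 * r + 1 - 0).toNat : ℤ) : ℝ) = ((2 * r + 1 : ℤ) : ℝ) := by rw [this]
    push_cast at h2
    simpa using h2
  rw [e1]
  have h2 : (2 * (r : ℝ)) ^ (3/4 : ℝ) ≤ 2 * (r : ℝ) ^ (3/4 : ℝ) := by
    rw [Real.mul_rpow (by norm_num) (by linarith)]
    apply mul_le_mul_of_nonneg_right _ (by positivity)
    calc (2 : ℝ) ^ (3/4 : ℝ) ≤ 2 ^ (1 : ℝ) :=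
          Real.rpow_le_rpow_of_exponent_le (by norm_num) (by norm_num)
      _ = 2 := Real.rpow_one 2
  have h3 : (r : ℝ) ^ (7/4 : ℝ) = r * (r : ℝ) ^ (3/4 : ℝ) := by
    rw [show (7/4 : ℝ) = 1 + 3/4 by norm_num, Real.rpow_add (by linarith), Real.rpow_one]
  rw [h3]
  have h4 : 0 ≤ (r : ℝ) ^ (3/4 : ℝ) := by positivity
  calc (2 * (r : ℝ) + 1) * (12 * (2 * (r : ℝ)) ^ (3/4 : ℝ))
      ≤ (3 * (r : ℝ)) * (12 * (2 * (r : ℝ) ^ (3/4 : ℝ))) := by
        apply mul_le_mul (by linarith) _ (by positivity) (by linarith)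
        linarith
    _ = 72 * (r * (r : ℝ) ^ (3/4 : ℝ)) := by ring

/-- The rectangles of the arms are contained in the half-annulus. -/
theorem t12_sub {h : ℤ} (_hh : 1 ≤ h) {v : Vtx} (hv : v ∈ core h) :
    RE (v.1 - 6 * h) (v.1 + 6 * h) (v.2 - 2 * h) (v.2 + 2 * h) ⊆ SR h := by
  unfold core at hv
  rw [Finset.mem_product, Finset.mem_Icc, Finset.mem_Icc] at hv
  unfold SR
  apply RE_sub_ES
  intro x y h1 h2 h3 h4
  unfold HA2
  rw [Finset.mem_filter, Finset.mem_product, Finset.mem_Icc, Finset.mem_Icc]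
  refine ⟨⟨⟨?_, ?_⟩, ⟨?_, ?_⟩⟩, Or.inr (Or.inr ?_)⟩ <;> simp only <;> omega

theorem t12_nd {h : ℤ} {v w : Vtx} (hv : v ∈ core h) (hw : w ∈ core h) : nd v w ≤ 2 * h := by
  unfold core at hv hw
  rw [Finset.mem_product, Finset.mem_Icc, Finset.mem_Icc] at hv hw
  unfold nd
  rw [max_le_iff, abs_le, abs_le]
  omega

/-- Second moment method. -/
theorem t12_cs (S : Finset Edg) (B : Finset Vtx) (A : Vtx → Finset Edg → Prop)
    (D : Finset Edg → Prop) {a b : ℝ} (ha : 0 ≤ a)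
    (h1 : ∀ v ∈ B, a ≤ Q S (fun F => A v F ∧ D F))
    (h2 : ∀ v ∈ B, ∑ w ∈ B, Q S (fun F => A v F ∧ A w F) ≤ b) :
    ((B.card : ℝ) * a) ^ 2 ≤ (B.card : ℝ) * b * Q S (fun F => D F ∧ ∃ v ∈ B, A v F) := by
  have e1 : Ex (fun _ => (1/2 : ℝ)) S (fun F => (∑ v ∈ B, ind (A v F)) * ind (D F ∧ ∃ v ∈ B, A v F))
      = ∑ v ∈ B, Q S (fun F => A v F ∧ D F) := by
    unfold Q Pr
    rw [← Ex_sum]
    apply Ex_congr
    intro F _
    rw [Finset.sum_mul]
    apply Finset.sum_congr rfl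
    intro v hv
    rw [← ind_and]
    apply ind_congr
    constructor
    · rintro ⟨h3, h4, _⟩; exact ⟨h3, h4⟩
    · rintro ⟨h3, h4⟩; exact ⟨h3, h4, v, hv, h3⟩
  have e2 : Ex (fun _ => (1/2 : ℝ)) S (fun F => (∑ v ∈ B, ind (A v F)) ^ 2)
      = ∑ v ∈ B, ∑ w ∈ B, Q S (fun F => A v F ∧ A w F) := by
    unfold Q Pr
    simp only [← Ex_sum]
    apply Ex_congr
    intro F _
    rw [sq, Finset.sum_mul_sum]
    apply Finset.sum_congr rfl
    intro v _
    apply Finset.sum_congr rfl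
    intro w _
    rw [ind_and]
  have e3 : Ex (fun _ => (1/2 : ℝ)) S (fun F => (ind (D F ∧ ∃ v ∈ B, A v F)) ^ 2)
      = Q S (fun F => D F ∧ ∃ v ∈ B, A v F) := by
    unfold Q Pr
    apply Ex_congr
    intro F _
    rw [sq, ind_sq]
  have hcs := Ex_cs okhalf S (fun F => ∑ v ∈ B, ind (A v F)) (fun F => ind (D F ∧ ∃ v ∈ B, A v F))
  rw [e1, e2, e3] at hcs
  have g1 : (B.card : ℝ) * a ≤ ∑ v ∈ B, Q S (fun F => A v F ∧ D F) := by
    rw [← nsmul_eq_mul, ← Finset.sum_const]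
    exact Finset.sum_le_sum h1
  have g2 : ∑ v ∈ B, ∑ w ∈ B, Q S (fun F => A v F ∧ A w F) ≤ (B.card : ℝ) * b := by
    rw [← nsmul_eq_mul, ← Finset.sum_const]
    exact Finset.sum_le_sum h2
  calc ((B.card : ℝ) * a) ^ 2 ≤ (∑ v ∈ B, Q S (fun F => A v F ∧ D F)) ^ 2 :=
        pow_le_pow_left₀ (by positivity) g1 2
    _ ≤ _ := hcs
    _ ≤ _ := mul_le_mul_of_nonneg_right g2 (Q_nonneg _ _)

theorem t12 (h1 : St_T1c) (h2 : St_T2) (h3 : St_T3) : St_T12 := by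
  intro hA hL
  obtain ⟨c, s, hc, h2⟩ := h2 hL
  obtain ⟨C, hC, h3⟩ := h3 hA
  have hd := dlt_pos
  refine ⟨dlt ^ 4 * c ^ 2 / (18 * C), s, by positivity, ?_⟩
  intro h hh S hS z r hr hz
  have hh0 : (0 : ℝ) < h := by
    have : 0 < h := by omega
    exact_mod_cast this
  have hr0 : (1 : ℝ) ≤ r := by exact_mod_cast hr
  have hB : ∀ v ∈ t12_B z r, v ∈ core h := fun v hv => hz v (t12_mem.1 hv)
  have hsub : ∀ v ∈ t12_B z r,
      RE (v.1 - 6 * h) (v.1 + 6 * h) (v.2 - 2 * h) (v.2 + 2 * h) ⊆ S := fun v hv =>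
    (t12_sub (by omega) (hB v hv)).trans hS
  set a : ℝ := (h : ℝ) ^ (-(1/4) : ℝ) with ha
  have ha0 : 0 < a := by positivity
  set b : ℝ := (r : ℝ) ^ (7/4 : ℝ) with hb
  have hb0 : 0 < b := by positivity
  have key := t12_cs S (t12_B z r) (fun v F => E2 s h v F) (fun F => CL h F ∧ CR h F)
    (a := dlt * dlt * (c * a)) (b := C * a * (72 * b)) (by positivity)
    (by
      intro v hv
      refine le_trans ?_ (h1 h hh S hS s v (hB v hv))
      exact mul_le_mul_of_nonneg_left (h2 h (by omega) v S (hsub v hv)) (by positivity))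
    (by
      intro v hv
      have g1 : ∑ w ∈ t12_B z r, Q S (fun F => E2 s h v F ∧ E2 s h w F) ≤
          ∑ w ∈ t12_B z r, C * a * ((max (nd v w) 1 : ℤ) : ℝ) ^ (-(1/4) : ℝ) := by
        apply Finset.sum_le_sum
        intro w hw
        refine (h3 h (by omega) v w (t12_nd (hB v hv) (hB w hw)) S (hsub v hv) (hsub w hw) s).trans
          (le_of_eq ?_)
        ring
      refine g1.trans ?_
      rw [← Finset.mul_sum]
      exact mul_le_mul_of_nonneg_left (t12_sum hr (t12_mem.1 hv)) (by positivity))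
  rw [t12_card (by omega)] at key
  set n : ℝ := (2 * (r : ℝ) + 1) ^ 2 with hn
  have hn0 : 0 < n := by positivity
  have hn4 : 4 * (r : ℝ) ^ 2 ≤ n := by rw [hn]; nlinarith
  have hq : Q S (fun F => (CL h F ∧ CR h F) ∧ ∃ v ∈ t12_B z r, E2 s h v F) ≤
      Q S (fun F => (CL h F ∧ CR h F) ∧ ∃ v : Vtx, nd v z ≤ r ∧ E2 s h v F) := by
    apply Q_mono
    rintro F _ ⟨g1, v, g2, g3⟩
    exact ⟨g1, v, t12_mem.1 g2, g3⟩
  refine le_trans ?_ hq
  set q := Q S (fun F => (CL h F ∧ CR h F) ∧ ∃ v ∈ t12_B z r, E2 s h v F) with hqd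
  have hq0 : 0 ≤ q := Q_nonneg _ _
  have k1 : n * (dlt ^ 4 * c ^ 2 * a) ≤ 72 * C * b * q := by
    have h5 : (n * a) * (n * (dlt ^ 4 * c ^ 2 * a)) ≤ (n * a) * (72 * C * b * q) := by
      calc (n * a) * (n * (dlt ^ 4 * c ^ 2 * a)) = (n * (dlt * dlt * (c * a))) ^ 2 := by ring
        _ ≤ n * (C * a * (72 * b)) * q := key
        _ = (n * a) * (72 * C * b * q) := by ring
    exact le_of_mul_le_mul_left h5 (by positivity)
  have k2 : (r : ℝ) ^ 2 = (r : ℝ) ^ (1/4 : ℝ) * b := by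
    rw [hb, ← Real.rpow_add (by linarith), show (1/4 : ℝ) + 7/4 = ((2 : ℕ) : ℝ) by norm_num,
      Real.rpow_natCast]
  have k3 : ((r : ℝ) / h) ^ (1/4 : ℝ) = (r : ℝ) ^ (1/4 : ℝ) * a := by
    rw [Real.div_rpow (by linarith) hh0.le, ha, Real.rpow_neg hh0.le, div_eq_mul_inv]
  rw [k3]
  have k4 : 4 * ((r : ℝ) ^ (1/4 : ℝ) * b) * (dlt ^ 4 * c ^ 2 * a) ≤ 72 * C * b * q := by
    rw [← k2]
    exact le_trans (mul_le_mul_of_nonneg_right hn4 (by positivity)) k1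
  have k5 : (4 * b) * ((r : ℝ) ^ (1/4 : ℝ) * (dlt ^ 4 * c ^ 2 * a)) ≤ (4 * b) * (18 * C * q) := by
    calc (4 * b) * ((r : ℝ) ^ (1/4 : ℝ) * (dlt ^ 4 * c ^ 2 * a)) =
        4 * ((r : ℝ) ^ (1/4 : ℝ) * b) * (dlt ^ 4 * c ^ 2 * a) := by ring
      _ ≤ 72 * C * b * q := k4
      _ = (4 * b) * (18 * C * q) := by ring
  have k6 := le_of_mul_le_mul_left k5 (by positivity)
  rw [div_mul_eq_mul_div, div_le_iff₀ (by positivity)]
  calc dlt ^ 4 * c ^ 2 * ((r : ℝ) ^ (1/4 : ℝ) * a) =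
      (r : ℝ) ^ (1/4 : ℝ) * (dlt ^ 4 * c ^ 2 * a) := by ring
    _ ≤ 18 * C * q := k6
    _ = q * (18 * C) := by ring

end H934F
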