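import Pool.Agent.H934R3.D74.Props
import Pool.Agent.H934R3.D74.T10Aux

/-!
Task T10: upper bound for the dimension of the limits inside the domain (helper93).
-/

namespace H934F

open H974 H973 H12S H934E Finset MeasureTheory TopologicalSpace Filter Topology
open scoped ENNReal NNReal

theorem t10_open (R : Rect) : IsOpen R.D := by
  have h : R.D = {z : ℂ | -R.A < z.re} ∩ {z : ℂ | z.re < R.B} ∩ {z : ℂ | 0 < z.im} ∩
      {z : ℂ | z.im < R.H} := by
    ext z
    unfold Rect.D
    simp only [Set.mem_inter_iff, Set.mem_ofPred_eq]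
    tauto
  rw [h]
  exact ((((isOpen_lt continuous_const Complex.continuous_re).inter
    (isOpen_lt Complex.continuous_re continuous_const)).inter
    (isOpen_lt continuous_const Complex.continuous_im)).inter
    (isOpen_lt Complex.continuous_im continuous_const))

theorem t10_bdd (R : Rect) : ∃ M : ℕ, ∀ z ∈ R.D, |z.re| < M ∧ |z.im| < M := by
  obtain ⟨M, hM⟩ := exists_nat_gt (R.A + R.B + R.H)
  refine ⟨M, fun z hz => ?_⟩
  obtain ⟨h1, h2, h3, h4⟩ := hz
  have hA := R.hA
  have hB := R.hB
  have hH := R.hH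
  constructor
  · rw [abs_lt]
    constructor <;> linarith
  · rw [abs_lt]
    constructor <;> linarith

theorem t10 (h9 : St_T9) : St_T10 := by
  intro hA R δ hδ hδ0 μ hμ
  obtain ⟨C, hC, h9'⟩ := h9 hA
  obtain ⟨M, hM⟩ := t10_bdd R
  refine t10_main (t10_open R) hM hC hμ ?_
  intro z r d hr hrd hb
  have hev : ∀ᶠ i in atTop, δ i < r := hδ0.eventually_lt_const hr
  filter_upwards [hev] with i hi
  exact h9' R z r d hr hrd hb (δ i) (hδ i) hi.le

end H934F
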