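import Pool.Agent.H934R3.D74.Props

/-!
T11 (helper655): the subsequential limits live on compact subsets of the closed rectangle.
-/

namespace H934F

open H974 H973 H12S H934E Finset MeasureTheory TopologicalSpace Filter Topology

/-- the closed rectangle enlarged by `e` -/
def t11_C (R : Rect) (e : ℝ) : Set ℂ :=
  {z | (-R.A - e ≤ z.re ∧ z.re ≤ R.B + e) ∧ (-e ≤ z.im ∧ z.im ≤ R.H + e)}

theorem t11_isClosed (R : Rect) (e : ℝ) : IsClosed (t11_C R e) := by
  refine IsClosed.inter (IsClosed.inter ?_ ?_) (IsClosed.inter ?_ ?_)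
  · exact isClosed_le continuous_const Complex.continuous_re
  · exact isClosed_le Complex.continuous_re continuous_const
  · exact isClosed_le continuous_const Complex.continuous_im
  · exact isClosed_le Complex.continuous_im continuous_const

theorem t11_closure (R : Rect) :
    closure R.D = {z : ℂ | (-R.A ≤ z.re ∧ z.re ≤ R.B) ∧ (0 ≤ z.im ∧ z.im ≤ R.H)} := by
  have hA := R.hA
  have hB := R.hB
  have hH := R.hH
  have hD : R.D = Set.Ioo (-R.A) R.B ×ℂ Set.Ioo 0 R.H := by
    ext z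
    simp only [Rect.D, Complex.mem_reProdIm, Set.mem_ofPred_eq, Set.mem_Ioo]
    tauto
  rw [hD, Complex.closure_reProdIm, closure_Ioo (by linarith), closure_Ioo (by linarith)]
  ext z
  simp only [Complex.mem_reProdIm, Set.mem_ofPred_eq, Set.mem_Icc]

theorem t11_path (R : Rect) {δ e : ℝ} (hδ : 0 < δ) (h1 : 4 * δ < R.L0) (h2 : δ ≤ e)
    {F : Finset Edg} (hF : F ⊆ R.edges δ) : R.path δ F ⊆ t11_C R e := by
  intro z hz
  obtain ⟨v, hv, hv1, hv2⟩ := R.path_near hδ hz
  obtain ⟨g1, g2, g3, g4⟩ := R.small_geom hδ h1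
  have h3 := (R.mem_verts hδ).mp (R.clu_verts g1 g2 g3 g4 hF hv)
  unfold Rect.D pt at h3
  simp only [Set.mem_ofPred_eq] at h3
  obtain ⟨a1, a2, a3, a4⟩ := h3
  rw [abs_le] at hv1 hv2
  refine ⟨⟨?_, ?_⟩, ⟨?_, ?_⟩⟩ <;> linarith

/-- the compact sets which are not contained in the enlarged rectangle -/
def t11_G (R : Rect) (e : ℝ) : Set (NonemptyCompacts ℂ) :=
  {K | ((K : Set ℂ) ∩ (t11_C R e)ᶜ).Nonempty}

theorem t11_isOpen (R : Rect) (e : ℝ) : IsOpen (t11_G R e) :=
  NonemptyCompacts.isOpen_inter_nonempty_of_isOpen (t11_isClosed R e).isOpen_compl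

theorem t11_zero (R : Rect) {δ e : ℝ} (hδ : 0 < δ) (h1 : 4 * δ < R.L0) (h2 : δ ≤ e) :
    Q (R.edges δ) (fun F => R.trace hδ F ∈ t11_G R e) ≤ 0 := by
  have h3 : Q (R.edges δ) (fun F => R.trace hδ F ∈ t11_G R e) =
      Q (R.edges δ) (fun _ => False) := by
    apply Pr_congr
    intro F hF
    rw [iff_false]
    rintro ⟨z, hz, hz'⟩
    exact hz' (t11_path R hδ h1 h2 hF hz)
  rw [h3]
  unfold Q Pr
  have h4 : (fun F : Finset Edg => ind False) = fun _ => (0:ℝ) := by
    funext F; exact ind_not_of (fun h => h)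
  rw [h4, Ex_const]

/-- T11 -/
theorem t11 : St_T11 := by
  intro R δ hδ hlim μ hμ
  have hnull : ∀ e : ℝ, 0 < e → (μ : Measure (NonemptyCompacts ℂ)) (t11_G R e) = 0 := by
    intro e he
    have h := R.open_le hδ hμ (t11_isOpen R e) (q := 0) (by
      filter_upwards [hlim.eventually_lt_const
        (lt_min (div_pos R.L0_pos (by norm_num : (0:ℝ) < 4)) he)] with i hi
      rw [lt_min_iff] at hi
      exact t11_zero R (hδ i) (by linarith [hi.1]) hi.2.le)
    rw [ENNReal.ofReal_zero] at h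
    exact le_antisymm h bot_le
  have hall : ∀ᵐ (K : NonemptyCompacts ℂ) ∂(μ : Measure (NonemptyCompacts ℂ)),
      ∀ n : ℕ, K ∉ t11_G R (1 / ((n : ℝ) + 1)) := by
    rw [ae_all_iff]
    intro n
    rw [ae_iff]
    simp only [not_not]
    exact hnull _ (by positivity)
  filter_upwards [hall] with K hK
  intro z hz
  have hz' : ∀ n : ℕ, z ∈ t11_C R (1 / ((n : ℝ) + 1)) := by
    intro n
    by_contra hcon
    exact hK n ⟨z, hz, hcon⟩
  have key : ∀ x y : ℝ, (∀ n : ℕ, x ≤ y + 1 / ((n : ℝ) + 1)) → x ≤ y := by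
    intro x y h
    refine le_of_forall_pos_le_add fun ε hε => ?_
    obtain ⟨n, hn⟩ := exists_nat_one_div_lt hε
    linarith [h n]
  rw [t11_closure]
  refine ⟨⟨?_, ?_⟩, ⟨?_, ?_⟩⟩
  · refine key _ _ fun n => ?_
    have := (hz' n).1.1
    linarith
  · exact key _ _ fun n => (hz' n).1.2
  · refine key _ _ fun n => ?_
    have := (hz' n).2.1
    linarith
  · exact key _ _ fun n => (hz' n).2.2

end H934F
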