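import Pool.Agent.H934R3.D74.Props
import Pool.Agent.H934R2.Expl.Pieces

/-!
Task T4 of D74: the arms of a vertex of the core and the two crossings connect the vertex to the
first and the face to the second arc of the boundary (helper403).
-/

set_option maxHeartbeats 400000

namespace H934F

open H974 H973 H12S H934E Finset

theorem t4_dl_LRE {a b c d : ℤ} {e : Edg} (he : e ∈ LRE a b c d) :
    dl e ∈ RE a (b - 1) (c - 1) d := by
  obtain ⟨x, y, _ | _⟩ := e
  · rw [dl_f, mem_RE_true]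
    rw [mem_LRE_false] at he
    omega
  · rw [dl_t, mem_RE_false]
    rw [mem_LRE_true] at he
    omega

theorem t4_dl_RE {a b c d : ℤ} {e : Edg} (he : e ∈ RE a b c d) :
    dl e ∈ RE (a - 1) b (c - 1) d := by
  obtain ⟨x, y, _ | _⟩ := e
  · rw [dl_f, mem_RE_true]
    rw [mem_RE_false] at he
    omega
  · rw [dl_t, mem_RE_false]
    rw [mem_RE_true] at he
    omega

theorem t4_x0 (R : Rect) {δ : ℝ} (hδ : 0 < δ) {h : ℤ} (hL : 16 * (h : ℝ) * δ ≤ R.L0) :
    R.x0 δ ≤ -(16 * h) + 1 := by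
  unfold Rect.x0
  have h1 : 16 * (h : ℝ) ≤ R.A / δ := by
    rw [le_div_iff₀ hδ]
    exact hL.trans R.L0_A
  have h2 : ⌊-(R.A / δ)⌋ ≤ -(16 * h) := by
    have h3 : (⌊-(R.A / δ)⌋ : ℝ) ≤ -(R.A / δ) := Int.floor_le _
    have h4 : (⌊-(R.A / δ)⌋ : ℝ) ≤ ((-(16 * h) : ℤ) : ℝ) := by
      push_cast
      linarith
    exact_mod_cast h4
  omega

theorem t4_x1 (R : Rect) {δ : ℝ} (hδ : 0 < δ) {h : ℤ} (hL : 16 * (h : ℝ) * δ ≤ R.L0) :
    16 * h - 1 ≤ R.x1 δ := by
  unfold Rect.x1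
  have h1 : 16 * (h : ℝ) ≤ R.B / δ := by
    rw [le_div_iff₀ hδ]
    exact hL.trans R.L0_B
  have h2 : 16 * h ≤ ⌈R.B / δ⌉ := by
    have h3 : R.B / δ ≤ (⌈R.B / δ⌉ : ℝ) := Int.le_ceil _
    have h4 : ((16 * h : ℤ) : ℝ) ≤ (⌈R.B / δ⌉ : ℝ) := by
      push_cast
      linarith
    exact_mod_cast h4
  omega

theorem t4_y1 (R : Rect) {δ : ℝ} (hδ : 0 < δ) {h : ℤ} (hL : 16 * (h : ℝ) * δ ≤ R.L0) :
    16 * h - 2 ≤ R.y1 δ := by
  unfold Rect.y1
  have h1 : 16 * (h : ℝ) ≤ R.H / δ := by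
    rw [le_div_iff₀ hδ]
    exact hL.trans R.L0_H
  have h2 : 16 * h ≤ ⌈R.H / δ⌉ := by
    have h3 : R.H / δ ≤ (⌈R.H / δ⌉ : ℝ) := Int.le_ceil _
    have h4 : ((16 * h : ℤ) : ℝ) ≤ (⌈R.H / δ⌉ : ℝ) := by
      push_cast
      linarith
    exact_mod_cast h4
  omega

theorem t4_M (R : Rect) {δ : ℝ} (hδ : 0 < δ) {h : ℤ} (hL : 16 * (h : ℝ) * δ ≤ R.L0) :
    16 * h ≤ ⌊R.L0 / δ⌋ := by
  rw [Int.le_floor, le_div_iff₀ hδ]
  push_cast
  exact hL

/-- free edges: those of a rectangle away from the wired arc -/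
theorem t4_free (R : Rect) {δ : ℝ} {a b c d : ℤ} (ha : R.x0 δ < a) (hb : b ≤ R.x1 δ)
    (hc : 0 ≤ c) (hd : d < R.y1 δ) (hac : 0 < c ∨ 0 < a) {e : Edg} (he : e ∈ RE a b c d) :
    e ∈ R.edges δ ∧ e ∉ R.wired δ := by
  rw [R.edges_eq]
  obtain ⟨x, y, _ | _⟩ := e
  · rw [mem_RE_false] at he ⊢
    refine ⟨by omega, ?_⟩
    unfold Rect.wired
    rw [Set.mem_ofPred_eq]
    simp only [Bool.false_eq_true, false_and, false_or, or_false, true_and]
    omega
  · rw [mem_RE_true] at he ⊢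
    refine ⟨by omega, ?_⟩
    unfold Rect.wired
    rw [Set.mem_ofPred_eq]
    simp only [Bool.true_eq_false, false_and, false_or, true_and]
    omega

theorem t4 : St_T4 := by
  intro R δ hδ h hh hL F hF hCL hCR s v hv hE
  obtain ⟨hAL, hAR⟩ := hE
  unfold core at hv
  rw [Finset.mem_product, Finset.mem_Icc, Finset.mem_Icc] at hv
  obtain ⟨⟨v1, v2⟩, v3, v4⟩ := hv
  have b1 := t4_x0 R hδ hL
  have b2 := t4_x1 R hδ hL
  have b3 := t4_y1 R hδ hL
  have b4 := t4_M R hδ hL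
  constructor
  · -- open part
    obtain ⟨y, hy, hyr⟩ := hAL
    obtain ⟨x, x', hx, hx', hxr⟩ := hCL
    have hxr' : Reach (↑F ∩ ↑(RE (-(5 * h)) (-(3 * h) - 1) 0 (7 * h))) (x, 0) (x', 7 * h) :=
      hxr.mono (Set.inter_subset_inter_right (↑F) (by exact_mod_cast TBE_subset_RE))
    have m1 := cross_meet (F := (↑F : Set Edg)) (A := v.1 - 6 * h) (B := v.1 + 2 * h) (C := 0)
      (D := 7 * h) (a := -(5 * h)) (b := -(3 * h) - 1) (c := v.2 - 2 * h) (d := v.2 + 2 * h)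
      (by omega) (by omega) (by omega) (by omega) (by omega) (by omega) hyr.symm
      (by omega) (by omega) hxr' (by simp only; omega) (by simp only; omega)
    have hD := R.dob hδ (M := ⌊R.L0 / δ⌋ - 3) le_rfl
    have m2 := hD.line (l := x) (by omega) (by omega)
    have m3 : Reach (↑F ∪ R.wired δ) (0, 0) (x, 0) := m2.mono Set.subset_union_right
    have m4 : Reach (↑F ∪ R.wired δ) (x, 0) y :=
      m1.symm.mono (Set.inter_subset_left.trans Set.subset_union_left)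
    have m5 : Reach (↑F ∪ R.wired δ) y v :=
      hyr.symm.mono (Set.inter_subset_left.trans Set.subset_union_left)
    exact (m3.trans m4).trans m5
  · -- dual part
    obtain ⟨g, hg, hgr⟩ := hAR
    obtain ⟨x, x', hx, hx', hxr⟩ := hCR
    set G : Set Edg := ↑(R.edges δ) \ (↑F ∪ R.wired δ) with hG
    have s1 : Reach (dl '' G ∩ ↑(RE (v.1 - 2 * h - 1) (v.1 + 6 * h) (v.2 - 2 * h - 1)
        (v.2 + 2 * h))) (cface v s) g := by
      refine (reach_dl.mpr hgr).mono ?_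
      rintro _ ⟨e, he, rfl⟩
      rw [Finset.mem_coe, Finset.mem_sdiff] at he
      have k1 := t4_free R (δ := δ) (by omega) (by omega) (by omega) (by omega)
        (by omega) he.1
      refine ⟨⟨e, ?_, rfl⟩, Finset.mem_coe.mpr (t4_dl_RE he.1)⟩
      rw [hG]
      refine ⟨Finset.mem_coe.mpr k1.1, ?_⟩
      rintro (hf | hf)
      · exact he.2 (Finset.mem_coe.mp hf)
      · exact k1.2 hf
    have s2 : Reach (dl '' G ∩ ↑(RE (3 * h + 1) (5 * h - 1) (0 - 1) (7 * h))) (x, -1)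
        (x', 7 * h) := by
      refine (reach_dl.mpr hxr).mono ?_
      rintro _ ⟨e, he, rfl⟩
      rw [Finset.mem_coe, Finset.mem_sdiff] at he
      have k1 := t4_free R (δ := δ) (by omega) (by omega) (by omega) (by omega)
        (by omega) (LRE_subset_RE he.1)
      refine ⟨⟨e, ?_, rfl⟩, Finset.mem_coe.mpr (t4_dl_LRE he.1)⟩
      rw [hG]
      refine ⟨Finset.mem_coe.mpr k1.1, ?_⟩
      rintro (hf | hf)
      · exact he.2 (Finset.mem_coe.mp hf)
      · exact k1.2 hf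
    have hcf : (cface v s).1 ≤ v.1 := by
      unfold cface
      simp only
      split_ifs <;> omega
    have m1 := cross_meet (F := dl '' G) (A := v.1 - 2 * h - 1) (B := v.1 + 6 * h) (C := 0 - 1)
      (D := 7 * h) (a := 3 * h + 1) (b := 5 * h - 1) (c := v.2 - 2 * h - 1) (d := v.2 + 2 * h)
      (by omega) (by omega) (by omega) (by omega) (by omega) (by omega) s1
      (by omega) (by omega) s2 (by simp only; omega) (by simp only; omega)
    refine ⟨(x, -1), Or.inl ⟨rfl, ?_, ?_⟩, ?_⟩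
    · simp only; omega
    · simp only; omega
    · exact (reach_dl.mp (m1.mono Set.inter_subset_left)).symm

end H934F
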