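import Pool.Agent.H934R3.D74.Props

/-!
T6: independence of the scales.
-/

set_option autoImplicit false

namespace H934F

open H974 H973 H12S H934E Finset

theorem t6_mem_HA2 {h : ℤ} {y : Vtx} : y ∈ HA2 h ↔
    ((-(7 * h) ≤ y.1 ∧ y.1 ≤ 7 * h) ∧ (0 ≤ y.2 ∧ y.2 ≤ 7 * h)) ∧
      (y.1 ≤ -(3 * h) ∨ 3 * h ≤ y.1 ∨ h ≤ y.2) := by
  unfold HA2
  rw [Finset.mem_filter, Finset.mem_product, Finset.mem_Icc, Finset.mem_Icc]

theorem t6_mem_core {h : ℤ} {v : Vtx} : v ∈ core h ↔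
    (-h ≤ v.1 ∧ v.1 ≤ h) ∧ (3 * h ≤ v.2 ∧ v.2 ≤ 5 * h) := by
  unfold core
  rw [Finset.mem_product, Finset.mem_Icc, Finset.mem_Icc]

theorem t6_RE_sub {h a b c d : ℤ} (h1 : -(7 * h) ≤ a) (h2 : b ≤ 7 * h) (h3 : 0 ≤ c)
    (h4 : d ≤ 7 * h) (h5 : b ≤ -(3 * h) ∨ 3 * h ≤ a ∨ h ≤ c) : RE a b c d ⊆ SR h := by
  unfold SR
  apply RE_sub_ES
  intro x y hx1 hx2 hy1 hy2
  rw [t6_mem_HA2]
  simp only
  omega

theorem t6_sdiff {F S T : Finset Edg} (hT : T ⊆ S) : T \ (F ∩ S) = T \ F := by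
  ext e
  rw [Finset.mem_sdiff, Finset.mem_sdiff, Finset.mem_inter]
  constructor
  · rintro ⟨h1, h2⟩
    exact ⟨h1, fun h3 => h2 ⟨h3, hT h1⟩⟩
  · rintro ⟨h1, h2⟩
    exact ⟨h1, fun h3 => h2 h3.1⟩

theorem t6_ArmL {h : ℤ} {v : Vtx} (hv : v ∈ core h) (F : Finset Edg) :
    ArmL h v F ↔ ArmL h v (F ∩ SR h) := by
  rw [t6_mem_core] at hv
  unfold ArmL
  rw [coe_inter_eq (t6_RE_sub (by omega) (by omega) (by omega) (by omega) (by omega))]

theorem t6_ArmR {s : Bool × Bool} {h : ℤ} {v : Vtx} (hv : v ∈ core h) (F : Finset Edg) :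
    ArmR s h v F ↔ ArmR s h v (F ∩ SR h) := by
  rw [t6_mem_core] at hv
  unfold ArmR
  rw [t6_sdiff (t6_RE_sub (by omega) (by omega) (by omega) (by omega) (by omega))]

theorem t6_E2 {s : Bool × Bool} {h : ℤ} {v : Vtx} (hv : v ∈ core h) (F : Finset Edg) :
    E2 s h v F ↔ E2 s h v (F ∩ SR h) := by
  unfold E2
  rw [← t6_ArmL hv F, ← t6_ArmR hv F]

theorem t6_CL {h : ℤ} (hh : 1 ≤ h) (F : Finset Edg) : CL h F ↔ CL h (F ∩ SR h) := by
  unfold CL
  exact TBc_local (TBE_subset_RE.trans (t6_RE_sub (by omega) (by omega) (by omega) (by omega)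
    (by omega)))

theorem t6_CR {h : ℤ} (hh : 1 ≤ h) (F : Finset Edg) : CR h F ↔ CR h (F ∩ SR h) := by
  unfold CR
  rw [t6_sdiff (LRE_subset_RE.trans (t6_RE_sub (by omega) (by omega) (by omega) (by omega)
    (by omega)))]

theorem t6_VS (s : Bool × Bool) (h : ℤ) (F : Finset Edg) : VS s h F = VS s h (F ∩ SR h) := by
  classical
  unfold VS
  apply Finset.filter_congr
  intro v hv
  exact t6_E2 hv F

theorem t6_Gd2 {c0 E0 t : ℝ} {s : Bool × Bool} {h : ℤ} (hh : 1 ≤ h) (F : Finset Edg) :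
    Gd2 c0 E0 t s h F ↔ Gd2 c0 E0 t s h (F ∩ SR h) := by
  unfold Gd2 En
  rw [← t6_VS s h F, ← t6_CL hh F, ← t6_CR hh F]

theorem t6_disj {h h' : ℤ} (hh : 1 ≤ h) (hh' : 16 * h ≤ h') : Disjoint (SR h) (SR h') := by
  rw [Finset.disjoint_left]
  intro e h1 h2
  unfold SR at h1 h2
  rw [mem_ES] at h1 h2
  have h3 := t6_mem_HA2.mp h1.1
  have h4 := t6_mem_HA2.mp h2.1
  omega

theorem t6 : St_T6 := by
  intro p hp c0 E0 t s u hu hG J
  induction J with
  | zero =>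
    intro S _
    rw [pow_zero]
    exact Pr_le_one okhalf _ _
  | succ J ih =>
    intro S hS
    have hpos : ∀ j : ℕ, (2 : ℤ) ≤ 16 ^ j * u := by
      intro j
      have : (1 : ℤ) ≤ 16 ^ j := one_le_pow₀ (by norm_num)
      nlinarith
    set T : Finset Edg := (Finset.range J).biUnion (fun j => SR (16 ^ j * u)) with hT
    have hTS : T ⊆ S := by
      rw [hT, Finset.biUnion_subset]
      intro j hj
      exact hS j (by have := Finset.mem_range.mp hj; omega)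
    have hdis : Disjoint T (SR (16 ^ J * u)) := by
      rw [hT, Finset.disjoint_biUnion_left]
      intro j hj
      have hj' := Finset.mem_range.mp hj
      apply t6_disj (by have := hpos j; omega)
      have h1 : (16 : ℤ) ^ (j + 1) ≤ 16 ^ J := pow_le_pow_right₀ (by norm_num) hj'
      have h2 : (16 : ℤ) ^ (j + 1) = 16 * 16 ^ j := by rw [pow_succ]; ring
      rw [h2] at h1
      calc 16 * ((16 : ℤ) ^ j * u) = (16 * 16 ^ j) * u := by ring
        _ ≤ 16 ^ J * u := mul_le_mul_of_nonneg_right h1 (by omega)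
    have hA : ∀ F : Finset Edg, F ⊆ S → ((∀ j < J, ¬ Gd2 c0 E0 t s (16 ^ j * u) F) ↔
        ∀ j < J, ¬ Gd2 c0 E0 t s (16 ^ j * u) (F ∩ T)) := by
      intro F _
      refine forall_congr' fun j => ?_
      refine forall_congr' fun hj => ?_
      have hsub : SR (16 ^ j * u) ⊆ T := by
        rw [hT]
        exact Finset.subset_biUnion_of_mem (fun j => SR (16 ^ j * u)) (Finset.mem_range.mpr hj)
      have hh : (1 : ℤ) ≤ 16 ^ j * u := by have := hpos j; omega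
      rw [t6_Gd2 hh F, t6_Gd2 hh (F ∩ T), Finset.inter_assoc, Finset.inter_eq_right.mpr hsub]
    have hB : ∀ F : Finset Edg, F ⊆ S → (¬ Gd2 c0 E0 t s (16 ^ J * u) F ↔
        ¬ Gd2 c0 E0 t s (16 ^ J * u) (F ∩ SR (16 ^ J * u))) := by
      intro F _
      have hh : (1 : ℤ) ≤ 16 ^ J * u := by have := hpos J; omega
      rw [← t6_Gd2 hh F]
    have h1 : Q S (fun F => ∀ j < J + 1, ¬ Gd2 c0 E0 t s (16 ^ j * u) F) =
        Q S (fun F => (∀ j < J, ¬ Gd2 c0 E0 t s (16 ^ j * u) F) ∧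
          ¬ Gd2 c0 E0 t s (16 ^ J * u) F) := by
      unfold Q
      apply Pr_congr
      intro F _
      constructor
      · intro h2
        exact ⟨fun j hj => h2 j (by omega), h2 J (by omega)⟩
      · rintro ⟨h2, h3⟩ j hj
        rcases Nat.lt_or_ge j J with h4 | h4
        · exact h2 j h4
        · have : j = J := by omega
          subst this
          exact h3
    rw [h1]
    have h2 : Q S (fun F => (∀ j < J, ¬ Gd2 c0 E0 t s (16 ^ j * u) F) ∧
          ¬ Gd2 c0 E0 t s (16 ^ J * u) F) =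
        Q S (fun F => ∀ j < J, ¬ Gd2 c0 E0 t s (16 ^ j * u) F) *
          Q S (fun F => ¬ Gd2 c0 E0 t s (16 ^ J * u) F) := by
      unfold Q
      exact Pr_indep hTS (hS J (by omega)) hdis hA hB
    rw [h2, pow_succ]
    have h3 := ih S (fun j hj => hS j (by omega))
    have h4 : Q S (fun F => ¬ Gd2 c0 E0 t s (16 ^ J * u) F) ≤ 1 - p := by
      unfold Q
      rw [Pr_not]
      have := hG (16 ^ J * u) (hpos J) S (hS J (by omega))
      unfold Q at this
      linarith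
    have h5 : 0 ≤ Q S (fun F => ¬ Gd2 c0 E0 t s (16 ^ J * u) F) := Pr_nonneg okhalf _ _
    have h6 : (0 : ℝ) ≤ (1 - p) ^ J := pow_nonneg (by linarith) _
    exact mul_le_mul h3 h4 h5 h6

end H934F
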