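import Pool.Agent.H934R3.D74.Props

/-!
T7: on the good event the trace is good in the sense of `H389R2.Dim.Lower`.
-/

namespace H934F

open H974 H973 H12S H934E Finset

/-- The end point of the corner segment. -/
noncomputable def t7_pt (δ : ℝ) (s : Bool × Bool) (v : Vtx) : ℂ :=
  pt δ v + ⟨if s.1 then δ / 2 else -(δ / 2), 0⟩

theorem t7_re (δ : ℝ) (s : Bool × Bool) (v w : Vtx) :
    (t7_pt δ s v - t7_pt δ s w).re = δ * (v.1 - w.1) := by
  unfold t7_pt pt
  simp only [Complex.sub_re, Complex.add_re]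
  ring

theorem t7_im (δ : ℝ) (s : Bool × Bool) (v w : Vtx) :
    (t7_pt δ s v - t7_pt δ s w).im = δ * (v.2 - w.2) := by
  unfold t7_pt pt
  simp only [Complex.sub_im, Complex.add_im]
  ring

theorem t7_dist {δ : ℝ} (hδ : 0 < δ) (s : Bool × Bool) (v w : Vtx) :
    δ * ((nd v w : ℤ) : ℝ) ≤ dist (t7_pt δ s v) (t7_pt δ s w) := by
  rw [dist_eq_norm]
  have h1 := Complex.abs_re_le_norm (t7_pt δ s v - t7_pt δ s w)
  have h2 := Complex.abs_im_le_norm (t7_pt δ s v - t7_pt δ s w)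
  rw [t7_re, abs_mul, abs_of_pos hδ] at h1
  rw [t7_im, abs_mul, abs_of_pos hδ] at h2
  unfold nd
  rcases max_cases |v.1 - w.1| |v.2 - w.2| with h | h
  · rw [h.1]; push_cast; exact h1
  · rw [h.1]; push_cast; exact h2

theorem t7_inj {δ : ℝ} (hδ : 0 < δ) (s : Bool × Bool) : Function.Injective (t7_pt δ s) := by
  intro v w h
  have h1 : t7_pt δ s v - t7_pt δ s w = 0 := sub_eq_zero.2 h
  have h2 := t7_re δ s v w
  have h3 := t7_im δ s v w
  rw [h1] at h2 h3
  simp only [Complex.zero_re, Complex.zero_im] at h2 h3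
  have h4 : (v.1 : ℝ) - w.1 = 0 := by
    rcases mul_eq_zero.1 h2.symm with h | h
    · exact absurd h hδ.ne'
    · exact h
  have h5 : (v.2 : ℝ) - w.2 = 0 := by
    rcases mul_eq_zero.1 h3.symm with h | h
    · exact absurd h hδ.ne'
    · exact h
  have h6 : v.1 = w.1 := by exact_mod_cast sub_eq_zero.1 h4
  have h7 : v.2 = w.2 := by exact_mod_cast sub_eq_zero.1 h5
  exact Prod.ext h6 h7

theorem t7 (h4 : St_T4) : St_T7 := by
  classical
  intro R δ hδ h hh hL F hF c0 E0 t s hc0 hE0 ht hG δ' hδ'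
  obtain ⟨⟨hCL, hCR⟩, hcard, hEn⟩ := hG
  have hh0 : (0 : ℝ) < (h : ℝ) := by exact_mod_cast (by omega : (0 : ℤ) < h)
  have hE : 0 < E0 / c0 ^ 2 * (δ * h) ^ (-t) := by positivity
  have hcpos : (0 : ℝ) < ((VS s h F).card : ℝ) :=
    lt_of_lt_of_le (by positivity) hcard
  have hne : (VS s h F).Nonempty := by
    rw [← Finset.card_pos]; exact_mod_cast hcpos
  have hδ0' : 0 < δ' := lt_of_lt_of_le hδ hδ'
  refine Pool.Agent.H389R2.Dim.good_of_energy hδ0' ht.le hE
    ((VS s h F).image (t7_pt δ s)) (hne.image _) ?_ ?_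
  · intro z hz
    rw [Finset.mem_coe, Finset.mem_image] at hz
    obtain ⟨v, hv, rfl⟩ := hz
    unfold VS at hv
    rw [Finset.mem_filter] at hv
    have h5 := h4 R δ hδ h hh hL F hF hCL hCR s v hv.1 hv.2
    unfold Rect.path
    rw [Set.mem_iUnion₂]
    refine ⟨(v, s), h5, ?_⟩
    exact left_mem_segment ℝ _ _
  · rw [Finset.sum_image (fun a _ b _ hab => t7_inj hδ s hab),
      Finset.card_image_of_injective _ (t7_inj hδ s)]
    have e1 : ∀ v ∈ VS s h F, ∑ y ∈ (VS s h F).image (t7_pt δ s),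
        (max (dist (t7_pt δ s v) y) δ') ^ (-t) ≤
        ∑ w ∈ VS s h F, δ ^ (-t) * ((max (nd v w) 1 : ℤ) : ℝ) ^ (-t) := by
      intro v _
      rw [Finset.sum_image (fun a _ b _ hab => t7_inj hδ s hab)]
      refine Finset.sum_le_sum fun w _ => ?_
      have hm : (1 : ℝ) ≤ ((max (nd v w) 1 : ℤ) : ℝ) := by
        exact_mod_cast le_max_right (nd v w) 1
      rw [← Real.mul_rpow hδ.le (by linarith)]
      refine Real.rpow_le_rpow_of_nonpos (by positivity) ?_ (by linarith)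
      have h6 := t7_dist hδ s v w
      rcases max_cases (nd v w) 1 with h | h
      · rw [h.1]; exact h6.trans (le_max_left _ _)
      · rw [h.1]; push_cast; rw [mul_one]; exact hδ'.trans (le_max_right _ _)
    refine (Finset.sum_le_sum e1).trans ?_
    have e2 : ∑ v ∈ VS s h F, ∑ w ∈ VS s h F, δ ^ (-t) * ((max (nd v w) 1 : ℤ) : ℝ) ^ (-t)
        = δ ^ (-t) * En t s h F := by
      unfold En
      rw [Finset.mul_sum]
      refine Finset.sum_congr rfl fun v _ => ?_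
      rw [Finset.mul_sum]
    rw [e2]
    have e3 : (c0 * (h : ℝ) ^ (7/4 : ℝ)) ^ 2 ≤ ((VS s h F).card : ℝ) ^ 2 :=
      pow_le_pow_left₀ (by positivity) hcard 2
    have e4 : (c0 * (h : ℝ) ^ (7/4 : ℝ)) ^ 2 = c0 ^ 2 * (h : ℝ) ^ (7/2 : ℝ) := by
      rw [mul_pow, ← Real.rpow_natCast ((h : ℝ) ^ (7/4 : ℝ)) 2, ← Real.rpow_mul hh0.le]
      norm_num
    rw [e4] at e3
    calc δ ^ (-t) * En t s h F ≤ δ ^ (-t) * (E0 * (h : ℝ) ^ (7/2 - t)) :=
          mul_le_mul_of_nonneg_left hEn (by positivity)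
      _ = E0 / c0 ^ 2 * (δ * h) ^ (-t) * (c0 ^ 2 * (h : ℝ) ^ (7/2 : ℝ)) := by
          rw [Real.mul_rpow hδ.le hh0.le, sub_eq_add_neg, Real.rpow_add hh0]
          field_simp
      _ ≤ E0 / c0 ^ 2 * (δ * h) ^ (-t) * ((VS s h F).card : ℝ) ^ 2 :=
          mul_le_mul_of_nonneg_left e3 hE.le

end H934F
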