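import Pool.Agent.H934R3.D74.Geo

/-!
Lower bound for the dimension of the limits of the trace.
-/

namespace H934F

open H974 H973 H12S H934E Finset MeasureTheory TopologicalSpace Filter Topology

theorem t8 (h5 : St_T5) (h6 : St_T6) (h7 : St_T7) : St_T8 := by
  intro hA hL R δ hδ hlim μ hμ t ht ht1
  obtain ⟨s, c0, E0, p, hc0, hE0, hp, hp1, hG⟩ := h5 hA hL t ht ht1
  have hL0 := R.L0_pos
  apply Pool.Agent.H389R2.Dim.lower_of_tendsto ht hμ
  intro ε hε
  -- the number of scales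
  obtain ⟨J, hJ⟩ : ∃ J : ℕ, ENNReal.ofReal ((1 - p) ^ J) ≤ ε := by
    have h1 : Tendsto (fun J : ℕ => ENNReal.ofReal ((1 - p) ^ J)) atTop (𝓝 0) := by
      have h2 : Tendsto (fun J : ℕ => (1 - p) ^ J) atTop (𝓝 0) :=
        tendsto_pow_atTop_nhds_zero_of_lt_one (by linarith) (by linarith)
      have h3 := ENNReal.tendsto_ofReal h2
      rwa [ENNReal.ofReal_zero] at h3
    exact ((h1.eventually_lt_const hε).exists).imp fun J hJ => hJ.le
  set ρ : ℝ := R.L0 / (32 * 16 ^ J) with hρ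
  have hρ0 : 0 < ρ := by positivity
  refine ⟨2 ^ (-t) / (E0 / c0 ^ 2 * ρ ^ (-t)), by positivity, fun δ' hδ' => ?_⟩
  apply Eventually.frequently
  filter_upwards [hlim.eventually_lt_const (lt_min hδ' (show 0 < ρ / 4 by positivity))] with i hi
  rw [lt_min_iff] at hi
  obtain ⟨hi1, hi2⟩ := hi
  have hδi := hδ i
  set u : ℤ := ⌊R.L0 / (16 * 16 ^ J * δ i)⌋ with hu
  have e1 : R.L0 / (16 * 16 ^ J * δ i) = 2 * ρ / δ i := by
    rw [hρ]; field_simp; ring
  have u1 : (u : ℝ) ≤ 2 * ρ / δ i := by rw [← e1]; exact Int.floor_le _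
  have u2 : 2 * ρ / δ i < u + 1 := by rw [← e1]; exact Int.lt_floor_add_one _
  have u3 : (8 : ℝ) < 2 * ρ / δ i := by rw [lt_div_iff₀ hδi]; linarith
  have hu2 : 2 ≤ u := by
    have : ((7 : ℤ) : ℝ) < (u : ℝ) := by push_cast; linarith
    have : (7 : ℤ) < u := by exact_mod_cast this
    omega
  have hρu : ρ ≤ δ i * u := by
    have h1 : 2 * ρ / δ i ≤ 2 * u := by
      have : (1 : ℝ) ≤ u := by exact_mod_cast (by omega : (1 : ℤ) ≤ u)
      linarith
    rw [div_le_iff₀ hδi] at h1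
    linarith
  have hsc : ∀ j < J, 16 * ((16 ^ j * u : ℤ) : ℝ) * δ i ≤ R.L0 := by
    intro j hj
    have h1 : (u : ℝ) * δ i ≤ 2 * ρ := by rwa [le_div_iff₀ hδi] at u1
    have h2 : (16 : ℝ) ^ j ≤ 16 ^ J := pow_le_pow_right₀ (by norm_num) hj.le
    have h3 : 2 * ρ * (16 * 16 ^ J) = R.L0 := by rw [hρ]; field_simp; ring
    push_cast
    calc 16 * (16 ^ j * (u : ℝ)) * δ i = (16 * 16 ^ j) * (u * δ i) := by ring
      _ ≤ (16 * 16 ^ J) * (2 * ρ) := by
          apply mul_le_mul (by linarith) h1 (by positivity) (by positivity)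
      _ = R.L0 := by linarith
  have hge : ∀ j : ℕ, 2 ≤ 16 ^ j * u := by
    intro j
    have : (1 : ℤ) ≤ 16 ^ j := one_le_pow₀ (by norm_num)
    nlinarith
  have hmeas : MeasurableSet {K : NonemptyCompacts ℂ |
      ¬ Pool.Agent.H389R2.Dim.Good t δ' (2 ^ (-t) / (E0 / c0 ^ 2 * ρ ^ (-t))) (K : Set ℂ)} :=
    ((Pool.Agent.H389R2.Dim.isClosed_good t δ' _).isOpen_compl).measurableSet
  rw [R.law_apply hδi hmeas]
  refine le_trans (ENNReal.ofReal_le_ofReal ?_) hJ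
  refine le_trans (Q_mono ?_) (h6 p hp1 c0 E0 t s u hu2 hG J (R.edges (δ i))
    (fun j hj => SR_sub R hδi (hge j) (hsc j hj)))
  intro F hF hbad j hj hgd
  apply hbad
  have hg := h7 R (δ i) hδi (16 ^ j * u) (hge j) (hsc j hj) F hF c0 E0 t s hc0 hE0 ht hgd δ' hi1.le
  intro s' hs' hcov
  have h1 := hg s' hs' hcov
  refine le_trans ?_ h1
  have h2 : ρ ≤ δ i * ((16 ^ j * u : ℤ) : ℝ) := by
    refine hρu.trans ?_
    apply mul_le_mul_of_nonneg_left _ hδi.le
    have : u ≤ 16 ^ j * u := by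
      have : (1 : ℤ) ≤ 16 ^ j := one_le_pow₀ (by norm_num)
      nlinarith
    exact_mod_cast this
  have h3 : (δ i * ((16 ^ j * u : ℤ) : ℝ)) ^ (-t) ≤ ρ ^ (-t) :=
    Real.rpow_le_rpow_of_nonpos hρ0 h2 (by linarith)
  have h4 : 0 < (δ i * ((16 ^ j * u : ℤ) : ℝ)) ^ (-t) := by
    apply Real.rpow_pos_of_pos; linarith
  apply div_le_div_of_nonneg_left (by positivity) (by positivity)
  apply mul_le_mul_of_nonneg_left h3 (by positivity)

end H934F
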