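import Pool.Agent.H934R3.D74.Props

/-!
T9 (helper862): if the path meets a disc inside of the domain there are two arms.
-/

namespace H934F

open H974 H973 H12S H934E Finset MeasureTheory TopologicalSpace Filter Topology

/-- the vertices of a box around the centre of the disc lie in the domain -/
theorem t9_box (R : Rect) {z : ℂ} {d δ : ℝ} (hδ : 0 < δ) (hd : 64 * δ ≤ d)
    (hball : Metric.ball z d ⊆ R.D) {v : Vtx} {m : ℤ} (hm : (m : ℝ) ≤ d / (4 * δ) + 3)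
    (h1 : |v.1 - ⌊z.re / δ⌋| ≤ m) (h2 : |v.2 - ⌊z.im / δ⌋| ≤ m) : v ∈ R.verts δ := by
  rw [R.mem_verts hδ]
  apply hball
  rw [Metric.mem_ball, Complex.dist_eq]
  have a1 := Int.floor_le (z.re / δ)
  have a2 := Int.lt_floor_add_one (z.re / δ)
  have b1 := Int.floor_le (z.im / δ)
  have b2 := Int.lt_floor_add_one (z.im / δ)
  have h1' : |(v.1 : ℝ) - ⌊z.re / δ⌋| ≤ m := by exact_mod_cast h1
  have h2' : |(v.2 : ℝ) - ⌊z.im / δ⌋| ≤ m := by exact_mod_cast h2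
  rw [abs_le] at h1' h2'
  have e1 : z.re / δ * δ = z.re := by field_simp
  have e2 : z.im / δ * δ = z.im := by field_simp
  have hdm : δ * m ≤ d / 4 + 3 * δ := by
    calc δ * m ≤ δ * (d / (4 * δ) + 3) := mul_le_mul_of_nonneg_left hm hδ.le
      _ = d / 4 + 3 * δ := by field_simp
  have c1 : |(pt δ v - z).re| ≤ d / 4 + 5 * δ := by
    unfold pt
    simp only [Complex.sub_re]
    rw [abs_le]
    constructor <;> nlinarith
  have c2 : |(pt δ v - z).im| ≤ d / 4 + 5 * δ := by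
    unfold pt
    simp only [Complex.sub_im]
    rw [abs_le]
    constructor <;> nlinarith
  have h3 := Complex.norm_le_abs_re_add_abs_im (pt δ v - z)
  linarith

/-- the deterministic part -/
theorem t9_det (R : Rect) {z : ℂ} {r d δ : ℝ} (hδ : 0 < δ) (_hr : δ ≤ r) (hd : 64 * r ≤ d)
    (hball : Metric.ball z d ⊆ R.D) {F : Finset Edg}
    (hp : (R.path δ F ∩ Metric.ball z r).Nonempty) :
    Crs ⌊z.re / δ⌋ ⌊z.im / δ⌋ (⌈r / δ⌉₊ + 4) ⌊d / (4 * δ)⌋₊ ↑F ∧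
      DCrs ⌊z.re / δ⌋ ⌊z.im / δ⌋ (⌈r / δ⌉₊ + 4) ⌊d / (4 * δ)⌋₊ (↑(R.edges δ \ F) : Set Edg) := by
  obtain ⟨w, hw1, hw2⟩ := hp
  obtain ⟨v, f, hv, hf, ⟨v1, v2⟩, f1, f2⟩ := R.path_near2 hδ hw1
  rw [Metric.mem_ball, Complex.dist_eq] at hw2
  have w1 : |w.re - z.re| < r := (Complex.abs_re_le_norm (w - z)).trans_lt hw2
  have w2 : |w.im - z.im| < r := (Complex.abs_im_le_norm (w - z)).trans_lt hw2
  have a1 := Int.floor_le (z.re / δ)
  have a2 := Int.lt_floor_add_one (z.re / δ)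
  have b1 := Int.floor_le (z.im / δ)
  have b2 := Int.lt_floor_add_one (z.im / δ)
  set c1 : ℤ := ⌊z.re / δ⌋ with hc1
  set c2 : ℤ := ⌊z.im / δ⌋ with hc2
  set N : ℕ := ⌊d / (4 * δ)⌋₊ with hN
  set ρ : ℕ := ⌈r / δ⌉₊ with hρ
  have hρr : r / δ ≤ ρ := Nat.le_ceil _
  have hrpos : 0 < r := hδ.trans_le _hr
  have hdpos : 0 < d := by linarith
  have hNd : (N : ℝ) ≤ d / (4 * δ) := Nat.floor_le (by positivity)
  have hNd' : d / (4 * δ) < N + 1 := Nat.lt_floor_add_one _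
  have hρr' : (ρ : ℝ) < r / δ + 1 := Nat.ceil_lt_add_one (by positivity)
  -- multiplications by `δ`
  have eρ : r / δ * δ = r := by field_simp
  have e1 : z.re / δ * δ = z.re := by field_simp
  have e2 : z.im / δ * δ = z.im := by field_simp
  have mρ : r ≤ ρ * δ := by nlinarith
  have m1 : (c1 : ℝ) * δ ≤ z.re := by nlinarith
  have m2 : z.re < (c1 + 1) * δ := by nlinarith
  have n1 : (c2 : ℝ) * δ ≤ z.im := by nlinarith
  have n2 : z.im < (c2 + 1) * δ := by nlinarith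
  rw [abs_le] at v1 v2 f1 f2
  rw [abs_lt] at w1 w2
  have lt_of : ∀ {x y : ℝ}, x * δ < y * δ → x < y := fun h => lt_of_mul_lt_mul_right h hδ.le
  -- positions of `v` and `f`
  have p1 : c1 - (ρ + 4 : ℕ) ≤ v.1 := by
    have : (c1 : ℝ) - (ρ + 2) < v.1 := lt_of (by nlinarith)
    have h : c1 - ((ρ : ℤ) + 2) < v.1 := by exact_mod_cast this
    push_cast
    omega
  have p2 : v.1 ≤ c1 + (ρ + 4 : ℕ) := by
    have : (v.1 : ℝ) < (c1 : ℝ) + (ρ + 3) := lt_of (by nlinarith)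
    have h : v.1 < c1 + ((ρ : ℤ) + 3) := by exact_mod_cast this
    push_cast
    omega
  have p3 : c2 - (ρ + 4 : ℕ) ≤ v.2 := by
    have : (c2 : ℝ) - (ρ + 3) < v.2 := lt_of (by nlinarith)
    have h : c2 - ((ρ : ℤ) + 3) < v.2 := by exact_mod_cast this
    push_cast
    omega
  have p4 : v.2 ≤ c2 + (ρ + 4 : ℕ) := by
    have : (v.2 : ℝ) < (c2 : ℝ) + (ρ + 3) := lt_of (by nlinarith)
    have h : v.2 < c2 + ((ρ : ℤ) + 3) := by exact_mod_cast this
    push_cast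
    omega
  have q1 : c1 - (ρ + 4 : ℕ) ≤ f.1 := by
    have : (c1 : ℝ) - (ρ + 3) < f.1 := lt_of (by nlinarith)
    have h : c1 - ((ρ : ℤ) + 3) < f.1 := by exact_mod_cast this
    push_cast
    omega
  have q2 : f.1 ≤ c1 + (ρ + 4 : ℕ) := by
    have : (f.1 : ℝ) < (c1 : ℝ) + (ρ + 4) := lt_of (by nlinarith)
    have h : f.1 < c1 + ((ρ : ℤ) + 4) := by exact_mod_cast this
    push_cast
    omega
  have q3 : c2 - (ρ + 4 : ℕ) ≤ f.2 := by
    have : (c2 : ℝ) - (ρ + 4) < f.2 := lt_of (by nlinarith)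
    have h : c2 - ((ρ : ℤ) + 4) < f.2 := by exact_mod_cast this
    push_cast
    omega
  have q4 : f.2 ≤ c2 + (ρ + 4 : ℕ) := by
    have : (f.2 : ℝ) < (c2 : ℝ) + (ρ + 4) := lt_of (by nlinarith)
    have h : f.2 < c2 + ((ρ : ℤ) + 4) := by exact_mod_cast this
    push_cast
    omega
  -- `ρ + 4 ≤ N`
  have hρN : ρ + 4 ≤ N := by
    have h1 : (r / δ) * 16 ≤ d / (4 * δ) := by
      rw [div_mul_eq_mul_div, div_le_div_iff₀ hδ (by positivity)]
      nlinarith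
    have h2 : 1 ≤ r / δ := by
      rw [le_div_iff₀ hδ]
      linarith
    have h3 : (ρ : ℝ) + 4 < N + 1 := by linarith
    have h4 : ρ + 4 < N + 1 := by exact_mod_cast h3
    omega
  -- boxes
  have hbox : ∀ v : Vtx, |v.1 - c1| ≤ (N : ℤ) + 2 → |v.2 - c2| ≤ (N : ℤ) + 2 → v ∈ R.verts δ := by
    intro v h1 h2
    refine t9_box R hδ (by linarith) hball (m := (N : ℤ) + 2) ?_ h1 h2
    push_cast
    linarith
  have hv0 : ∀ v : Vtx, |v.1 - c1| ≤ (N : ℤ) + 2 → |v.2 - c2| ≤ (N : ℤ) + 2 →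
      (R.x0 δ ≤ v.1 ∧ v.1 ≤ R.x1 δ) ∧ (0 ≤ v.2 ∧ v.2 ≤ R.y1 δ) := fun v h1 h2 =>
    R.mem_verts'.1 (hbox v h1 h2)
  have hx1 : R.x0 δ ≤ c1 - (N + 2) := (hv0 (c1 - (N + 2), c2) (by simp only; rw [abs_le]; omega)
    (by simp only; rw [abs_le]; omega)).1.1
  have hx2 : c1 + (N + 2) ≤ R.x1 δ := (hv0 (c1 + (N + 2), c2) (by simp only; rw [abs_le]; omega)
    (by simp only; rw [abs_le]; omega)).1.2
  have hy1 : 0 ≤ c2 - (N + 2) := (hv0 (c1, c2 - (N + 2)) (by simp only; rw [abs_le]; omega)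
    (by simp only; rw [abs_le]; omega)).2.1
  have hy2 : c2 + (N + 2) ≤ R.y1 δ := (hv0 (c1, c2 + (N + 2)) (by simp only; rw [abs_le]; omega)
    (by simp only; rw [abs_le]; omega)).2.2
  push_cast at p1 p2 p3 p4 q1 q2 q3 q4
  constructor
  · obtain ⟨y, hy, hyb, hr'⟩ := first_exit (a := c1 - N) (b := c1 + N) (c := c2 - N) (d := c2 + N)
      (u := v) (v := ((0 : ℤ), (0 : ℤ))) (G := (↑F ∪ R.wired δ : Set Edg))
      (by unfold inR; omega) (Reach.symm hv) (by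
        simp only
        omega)
    refine ⟨v, y, ?_, ?_, hr'.mono ?_⟩
    · unfold inR
      push_cast
      omega
    · omega
    · rintro e ⟨he | he, he2⟩
      · exact he
      · exfalso
        have h5 := (mem_RE_ends (Finset.mem_coe.1 he2)).1
        unfold inR at h5
        have s1 : (src e).1 = e.1 := rfl
        have s2 : (src e).2 = e.2.1 := rfl
        rw [s1, s2] at h5
        rcases he with he | he | he
        · have := he.2.1
          omega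
        · have := he.2.1
          omega
        · have := he.2.1
          omega
  · obtain ⟨g, hg, hgf⟩ := hf
    refine ⟨f, g, ?_, ?_, (DReach.symm hgf).mono ?_⟩
    · unfold inR
      push_cast
      omega
    · have := R.outer_cases hg
      omega
    · rintro e ⟨he1, he2⟩
      rw [Finset.mem_coe, Finset.mem_sdiff]
      exact ⟨Finset.mem_coe.1 he1, fun h => he2 (Or.inl (Finset.mem_coe.2 h))⟩

theorem t9 : St_T9 := by
  rintro ⟨C, hC, hA⟩
  refine ⟨48 * C + 64, by positivity, ?_⟩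
  intro R z r d hr hrd hball δ hδ hδr
  have hopen : IsOpen {K : NonemptyCompacts ℂ | ((K : Set ℂ) ∩ Metric.ball z r).Nonempty} :=
    NonemptyCompacts.isOpen_inter_nonempty_of_isOpen Metric.isOpen_ball
  rw [R.law_apply hδ hopen.measurableSet]
  apply ENNReal.ofReal_le_ofReal
  have hdpos : 0 < d := hr.trans_le hrd
  have hq : 0 < r / d := by positivity
  have hq1 : r / d ≤ 1 := by
    rw [div_le_one hdpos]
    exact hrd
  have hself : r / d ≤ (r / d) ^ (1/4 : ℝ) := by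
    calc r / d = (r / d) ^ (1 : ℝ) := (Real.rpow_one _).symm
      _ ≤ (r / d) ^ (1/4 : ℝ) := Real.rpow_le_rpow_of_exponent_ge hq hq1 (by norm_num)
  by_cases h64 : 64 * r ≤ d
  · have hρ1 : 1 ≤ ⌈r / δ⌉₊ + 4 := by omega
    have h2 : 1 ≤ r / δ := by
      rw [le_div_iff₀ hδ]
      linarith
    have h3 : (⌈r / δ⌉₊ : ℝ) < r / δ + 1 := Nat.ceil_lt_add_one (by positivity)
    have h4 : d / (4 * δ) < (⌊d / (4 * δ)⌋₊ : ℝ) + 1 := Nat.lt_floor_add_one _
    have h5 : (r / δ) * 16 ≤ d / (4 * δ) := by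
      rw [div_mul_eq_mul_div, div_le_div_iff₀ hδ (by positivity)]
      nlinarith
    have hle : ⌈r / δ⌉₊ + 4 ≤ ⌊d / (4 * δ)⌋₊ := by
      have h6 : (⌈r / δ⌉₊ : ℝ) + 4 < (⌊d / (4 * δ)⌋₊ : ℝ) + 1 := by linarith
      have h7 : ⌈r / δ⌉₊ + 4 < ⌊d / (4 * δ)⌋₊ + 1 := by exact_mod_cast h6
      omega
    have hA' := hA (⌈r / δ⌉₊ + 4) ⌊d / (4 * δ)⌋₊ hρ1 hle ⌊z.re / δ⌋ ⌊z.im / δ⌋ (R.edges δ)
    have hmono : Q (R.edges δ) (fun F => R.trace hδ F ∈
        {K : NonemptyCompacts ℂ | ((K : Set ℂ) ∩ Metric.ball z r).Nonempty}) ≤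
        PQ (1/2) (R.edges δ) (fun F => Crs ⌊z.re / δ⌋ ⌊z.im / δ⌋ (⌈r / δ⌉₊ + 4) ⌊d / (4 * δ)⌋₊ ↑F ∧
          DCrs ⌊z.re / δ⌋ ⌊z.im / δ⌋ (⌈r / δ⌉₊ + 4) ⌊d / (4 * δ)⌋₊
            (↑(R.edges δ \ F) : Set Edg)) := by
      apply Q_mono
      intro F _ hF
      exact t9_det R hδ hδr h64 hball hF
    refine (hmono.trans hA').trans ?_
    have hN0 : (0 : ℝ) < (⌊d / (4 * δ)⌋₊ : ℝ) := by
      have : 0 < ⌊d / (4 * δ)⌋₊ := by omega
      exact_mod_cast this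
    have h8 : (((⌈r / δ⌉₊ + 4 : ℕ) : ℝ) / (⌊d / (4 * δ)⌋₊ : ℝ)) ≤ 48 * (r / d) := by
      push_cast
      rw [div_le_iff₀ hN0]
      have h9 : d / (8 * δ) ≤ (⌊d / (4 * δ)⌋₊ : ℝ) := by
        have h10 : d / (8 * δ) = d / (4 * δ) / 2 := by
          field_simp
          norm_num
        rw [h10]
        linarith
      have h11 : 48 * (r / d) * (d / (8 * δ)) = 6 * (r / δ) := by
        field_simp
        norm_num
      have h12 := mul_le_mul_of_nonneg_left h9 (by positivity : 0 ≤ 48 * (r / d))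
      rw [h11] at h12
      linarith
    have h13 : (((⌈r / δ⌉₊ + 4 : ℕ) : ℝ) / (⌊d / (4 * δ)⌋₊ : ℝ)) ^ (1/4 : ℝ) ≤
        48 * (r / d) ^ (1/4 : ℝ) := by
      calc (((⌈r / δ⌉₊ + 4 : ℕ) : ℝ) / (⌊d / (4 * δ)⌋₊ : ℝ)) ^ (1/4 : ℝ)
          ≤ (48 * (r / d)) ^ (1/4 : ℝ) :=
            Real.rpow_le_rpow (by positivity) h8 (by norm_num)
        _ = 48 ^ (1/4 : ℝ) * (r / d) ^ (1/4 : ℝ) := Real.mul_rpow (by norm_num) hq.le
        _ ≤ 48 * (r / d) ^ (1/4 : ℝ) := by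
            apply mul_le_mul_of_nonneg_right _ (by positivity)
            calc (48 : ℝ) ^ (1/4 : ℝ) ≤ 48 ^ (1 : ℝ) :=
                  Real.rpow_le_rpow_of_exponent_le (by norm_num) (by norm_num)
              _ = 48 := Real.rpow_one _
    have h14 : 0 ≤ (r / d) ^ (1/4 : ℝ) := by positivity
    calc C * (((⌈r / δ⌉₊ + 4 : ℕ) : ℝ) / (⌊d / (4 * δ)⌋₊ : ℝ)) ^ (1/4 : ℝ)
        ≤ C * (48 * (r / d) ^ (1/4 : ℝ)) := mul_le_mul_of_nonneg_left h13 hC.le
      _ ≤ (48 * C + 64) * (r / d) ^ (1/4 : ℝ) := by nlinarith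
  · push Not at h64
    have h1 : Q (R.edges δ) (fun F => R.trace hδ F ∈
        {K : NonemptyCompacts ℂ | ((K : Set ℂ) ∩ Metric.ball z r).Nonempty}) ≤ 1 :=
      Pr_le_one okhalf _ _
    refine h1.trans ?_
    have h2 : 1 / 64 ≤ r / d := by
      rw [div_le_div_iff₀ (by norm_num) hdpos]
      linarith
    have h3 : 1 ≤ 64 * (r / d) ^ (1/4 : ℝ) := by linarith
    have h4 : 0 ≤ (r / d) ^ (1/4 : ℝ) := by positivity
    nlinarith

end H934F
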