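import Pool.Agent.H934R3.D74.Fin
import Pool.Agent.H934R3.D74.T1
import Pool.Agent.H934R3.D74.T2
import Pool.Agent.H934R3.D74.T3
import Pool.Agent.H934R3.D74.T4
import Pool.Agent.H934R3.D74.T5
import Pool.Agent.H934R3.D74.T6
import Pool.Agent.H934R3.D74.T7
import Pool.Agent.H934R3.D74.T8
import Pool.Agent.H934R3.D74.T9
import Pool.Agent.H934R3.D74.T10
import Pool.Agent.H934R3.D74.T11
import Pool.Agent.H934R3.D74.T12
import Pool.Agent.H934R3.D74.T13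

/-!
Assembly of the dimension theorem from the annulus bound and the separated two-arm bound.
-/

namespace H934F

open H974 H973 H12S H934E Finset MeasureTheory TopologicalSpace Filter Topology

/-- dimension `7/4` of every weak limit -/
theorem dim74 (hA : St_A) (hL : St_L) (R : Rect)
    (δ : ℕ → ℝ) (hδ : ∀ i, 0 < δ i) (hlim : Tendsto δ atTop (𝓝 0))
    (μ : ProbabilityMeasure (NonemptyCompacts ℂ))
    (hμ : Tendsto (fun i => R.law (hδ i)) atTop (𝓝 μ)) :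
    ∀ᵐ (K : NonemptyCompacts ℂ) ∂(μ : Measure (NonemptyCompacts ℂ)), dimH (K : Set ℂ) = 7 / 4 :=
  fin_dim hA hL (t8 (t5 t1c t2 t3) t6 (t7 t4)) (t10 t9) t11 R δ hδ hlim μ hμ

/-- hitting probabilities -/
theorem hit74 (hA : St_A) (hL : St_L) : ∃ c C : ℝ, 0 < c ∧ 0 < C ∧ ∀ (R : Rect)
    (δ : ℕ → ℝ) (hδ : ∀ i, 0 < δ i), Tendsto δ atTop (𝓝 0) →
    ∀ μ : ProbabilityMeasure (NonemptyCompacts ℂ),
    Tendsto (fun i => R.law (hδ i)) atTop (𝓝 μ) →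
    (∀ (x y r : ℝ), 0 < r → r ≤ y → 8 * |x| ≤ y → 8 * y ≤ min R.A (min R.B R.H) →
      c * (r / y) ^ (1/4 : ℝ) ≤ (μ : Measure (NonemptyCompacts ℂ)).real
        {K : NonemptyCompacts ℂ | ((K : Set ℂ) ∩ Metric.closedBall ⟨x, y⟩ r).Nonempty}) ∧
    ∀ (z : ℂ) (r d : ℝ), 0 < r → r ≤ d → Metric.ball z d ⊆ R.D →
      (μ : Measure (NonemptyCompacts ℂ)).real
        {K : NonemptyCompacts ℂ | ((K : Set ℂ) ∩ Metric.closedBall z r).Nonempty} ≤
        C * (r / d) ^ (1/4 : ℝ) := by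
  obtain ⟨c, hc, h1⟩ := t13 t4 (t12 t1c t2 t3) hA hL
  obtain ⟨C, hC, h2⟩ := fin_hit t9 hA
  refine ⟨c, C, hc, hC, fun R δ hδ hlim μ hμ => ⟨fun x y r hr hry hx hy => ?_,
    fun z r d hr hrd hD => h2 R δ hδ hlim μ hμ z r d hr hrd hD⟩⟩
  exact h1 R δ hδ hlim μ hμ x y r hr hry hx hy

end H934F
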