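import Pool.Agent.H934R3.D74.Geo

/-!
Assembly: dimension of the limits of the trace and hitting probabilities.
-/

namespace H934F

open H974 H973 H12S H934E Finset MeasureTheory TopologicalSpace Filter Topology

/-- Every weak limit has dimension `7/4` almost surely. -/
theorem fin_dim (hA : St_A) (hL : St_L) (h8 : St_T8) (h10 : St_T10) (h11 : St_T11) (R : Rect)
    (δ : ℕ → ℝ) (hδ : ∀ i, 0 < δ i) (hlim : Tendsto δ atTop (𝓝 0))
    (μ : ProbabilityMeasure (NonemptyCompacts ℂ))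
    (hμ : Tendsto (fun i => R.law (hδ i)) atTop (𝓝 μ)) :
    ∀ᵐ (K : NonemptyCompacts ℂ) ∂(μ : Measure (NonemptyCompacts ℂ)), dimH (K : Set ℂ) = 7 / 4 := by
  have hlow : ∀ᵐ (K : NonemptyCompacts ℂ) ∂(μ : Measure (NonemptyCompacts ℂ)), ∀ n : ℕ,
      ENNReal.ofReal (7/4 - 1 / ((n : ℝ) + 1)) ≤ dimH (K : Set ℂ) := by
    rw [ae_all_iff]
    intro n
    have hn : 0 < 1 / ((n : ℝ) + 1) := by positivity
    have hn1 : 1 / ((n : ℝ) + 1) ≤ 1 := by
      rw [div_le_one (by positivity)]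
      have : (0 : ℝ) ≤ n := Nat.cast_nonneg n
      linarith
    exact h8 hA hL R δ hδ hlim μ hμ _ (by linarith) (by linarith)
  filter_upwards [hlow, h10 hA R δ hδ hlim μ hμ, h11 R δ hδ hlim μ hμ,
    R.ae_frontier hδ hlim hμ] with K k1 k2 k3 k4
  have e74 : ENNReal.ofReal (7/4) = 7 / 4 := by
    rw [ENNReal.ofReal_div_of_pos (by norm_num)]
    norm_num
  apply le_antisymm
  · have h1 : (K : Set ℂ) ⊆ ((K : Set ℂ) ∩ R.D) ∪ ((K : Set ℂ) ∩ frontier R.D) := by
      intro z hz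
      have h2 := k3 hz
      rw [closure_eq_self_union_frontier] at h2
      rcases h2 with h2 | h2
      · exact Or.inl ⟨hz, h2⟩
      · exact Or.inr ⟨hz, h2⟩
    refine (dimH_mono h1).trans ?_
    rw [dimH_union]
    refine max_le k2 ?_
    rw [k4.1]
    rw [ENNReal.div_le_iff (by norm_num) (by norm_num), ← e74]
    rw [show (2 : ENNReal) = ENNReal.ofReal 2 by norm_num, show (3 : ENNReal) = ENNReal.ofReal 3 by norm_num,
      ← ENNReal.ofReal_mul (by norm_num)]
    exact ENNReal.ofReal_le_ofReal (by norm_num)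
  · rw [← e74]
    have hlim2 : Tendsto (fun n : ℕ => ENNReal.ofReal (7/4 - 1 / ((n : ℝ) + 1))) atTop
        (𝓝 (ENNReal.ofReal (7/4 - 0))) := by
      apply ENNReal.tendsto_ofReal
      exact tendsto_const_nhds.sub tendsto_one_div_add_atTop_nhds_zero_nat
    rw [sub_zero] at hlim2
    exact le_of_tendsto hlim2 (Eventually.of_forall k1)

/-- Upper bound for the hitting probabilities. -/
theorem fin_hit (h9 : St_T9) (hA : St_A) : ∃ C : ℝ, 0 < C ∧ ∀ (R : Rect)
    (δ : ℕ → ℝ) (hδ : ∀ i, 0 < δ i), Tendsto δ atTop (𝓝 0) →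
    ∀ μ : ProbabilityMeasure (NonemptyCompacts ℂ),
    Tendsto (fun i => R.law (hδ i)) atTop (𝓝 μ) → ∀ (z : ℂ) (r d : ℝ), 0 < r → r ≤ d →
      Metric.ball z d ⊆ R.D →
      (μ : Measure (NonemptyCompacts ℂ)).real
        {K : NonemptyCompacts ℂ | ((K : Set ℂ) ∩ Metric.closedBall z r).Nonempty} ≤
        C * (r / d) ^ (1/4 : ℝ) := by
  obtain ⟨C, hC, h⟩ := h9 hA
  refine ⟨max 2 (C * 2 ^ (1/4 : ℝ)), by positivity, ?_⟩
  intro R δ hδ hlim μ hμ z r d hr hrd hD
  have hd : 0 < d := hr.trans_le hrd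
  have hrd0 : 0 < r / d := by positivity
  by_cases h2 : 2 * r ≤ d
  · have h3 : (μ : Measure (NonemptyCompacts ℂ))
        {K : NonemptyCompacts ℂ | ((K : Set ℂ) ∩ Metric.ball z (2 * r)).Nonempty} ≤
        ENNReal.ofReal (C * (2 * r / d) ^ (1/4 : ℝ)) := by
      have ho : IsOpen {K : NonemptyCompacts ℂ | ((K : Set ℂ) ∩ Metric.ball z (2 * r)).Nonempty} :=
        NonemptyCompacts.isOpen_inter_nonempty_of_isOpen Metric.isOpen_ball
      refine (ProbabilityMeasure.le_liminf_measure_open_of_tendsto hμ ho).trans ?_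
      apply Filter.liminf_le_of_frequently_le'
      apply Eventually.frequently
      filter_upwards [hlim.eventually_lt_const (show 0 < 2 * r by positivity)] with i hi
      exact h R z (2 * r) d (by positivity) h2 hD (δ i) (hδ i) hi.le
    have h4 : (μ : Measure (NonemptyCompacts ℂ)).real
        {K : NonemptyCompacts ℂ | ((K : Set ℂ) ∩ Metric.closedBall z r).Nonempty} ≤
        C * (2 * r / d) ^ (1/4 : ℝ) := by
      apply ENNReal.toReal_le_of_le_ofReal (by positivity)
      refine (measure_mono ?_).trans h3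
      rintro K ⟨w, hw1, hw2⟩
      refine ⟨w, hw1, ?_⟩
      rw [Metric.mem_closedBall] at hw2
      rw [Metric.mem_ball]
      linarith
    refine h4.trans ?_
    rw [show 2 * r / d = 2 * (r / d) by ring, Real.mul_rpow (by norm_num) hrd0.le, ← mul_assoc]
    apply mul_le_mul_of_nonneg_right (le_max_right _ _) (by positivity)
  · have h3 : (1/2 : ℝ) ≤ r / d := by
      rw [le_div_iff₀ hd]; linarith
    have h4 : (1/2 : ℝ) ≤ (r / d) ^ (1/4 : ℝ) := by
      calc (1/2 : ℝ) = (1/2 : ℝ) ^ (1 : ℝ) := by rw [Real.rpow_one]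
        _ ≤ (1/2 : ℝ) ^ (1/4 : ℝ) :=
            Real.rpow_le_rpow_of_exponent_ge (by norm_num) (by norm_num) (by norm_num)
        _ ≤ _ := Real.rpow_le_rpow (by norm_num) h3 (by norm_num)
    calc (μ : Measure (NonemptyCompacts ℂ)).real _ ≤ 1 := measureReal_le_one
      _ ≤ 2 * (r / d) ^ (1/4 : ℝ) := by linarith
      _ ≤ _ := mul_le_mul_of_nonneg_right (le_max_left _ _) (by positivity)

/-- The discs of the final statement lie in the rectangle. -/
theorem fin_ball (R : Rect) {x y : ℝ} (hy : 0 < y) (hx : 8 * |x| ≤ y) (hL : 8 * y ≤ R.L0) :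
    Metric.ball (⟨x, y⟩ : ℂ) y ⊆ R.D := by
  intro w hw
  rw [Metric.mem_ball, Complex.dist_eq] at hw
  have h1 := (Complex.abs_re_le_norm (w - ⟨x, y⟩)).trans_lt hw
  have h2 := (Complex.abs_im_le_norm (w - ⟨x, y⟩)).trans_lt hw
  rw [Complex.sub_re, abs_lt] at h1
  rw [Complex.sub_im, abs_lt] at h2
  simp only at h1 h2
  have hx2 := abs_le.mp (show |x| ≤ y / 8 by linarith)
  have hA := R.L0_A
  have hB := R.L0_B
  have hH := R.L0_H
  unfold Rect.D
  simp only [Set.mem_ofPred_eq]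
  refine ⟨by linarith, by linarith, by linarith, by linarith⟩

end H934F
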