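import Pool.Agent.H934R3.D74.Props

/-!
Geometry of the discrete rectangle at the scales used by the good events.
-/

namespace H934F

open H974 H973 H12S H934E Finset

/-- The box `[-8h, 8h] × [0, 8h]` lies in the discrete domain. -/
theorem geo_box (R : Rect) {δ : ℝ} (hδ : 0 < δ) {h : ℤ} (hh : 2 ≤ h)
    (hd : 16 * (h : ℝ) * δ ≤ R.L0) :
    R.x0 δ ≤ -(8 * h) - 1 ∧ 8 * h + 1 ≤ R.x1 δ ∧ 8 * h + 1 ≤ R.y1 δ := by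
  have h16 : ((16 * h : ℤ) : ℝ) ≤ R.L0 / δ := by
    rw [le_div_iff₀ hδ]; push_cast; linarith
  have h1 : 16 * h ≤ ⌊R.L0 / δ⌋ := Int.le_floor.mpr h16
  have a1 : ⌊R.L0 / δ⌋ ≤ ⌈R.B / δ⌉ :=
    (Int.floor_le_ceil _).trans (Int.ceil_le_ceil (div_le_div_of_nonneg_right R.L0_B hδ.le))
  have a2 : ⌊R.L0 / δ⌋ ≤ ⌈R.H / δ⌉ :=
    (Int.floor_le_ceil _).trans (Int.ceil_le_ceil (div_le_div_of_nonneg_right R.L0_H hδ.le))
  have a3 : ⌊R.L0 / δ⌋ ≤ ⌈R.A / δ⌉ :=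
    (Int.floor_le_ceil _).trans (Int.ceil_le_ceil (div_le_div_of_nonneg_right R.L0_A hδ.le))
  refine ⟨?_, ?_, ?_⟩
  · unfold Rect.x0; rw [Int.floor_neg]; omega
  · unfold Rect.x1; omega
  · unfold Rect.y1; omega

theorem mem_HA2 {h : ℤ} {y : Vtx} : y ∈ HA2 h ↔
    ((-(7 * h) ≤ y.1 ∧ y.1 ≤ 7 * h) ∧ (0 ≤ y.2 ∧ y.2 ≤ 7 * h)) ∧
      (y.1 ≤ -(3 * h) ∨ 3 * h ≤ y.1 ∨ h ≤ y.2) := by
  unfold HA2
  rw [Finset.mem_filter, Finset.mem_product, Finset.mem_Icc, Finset.mem_Icc]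

theorem mem_core {h : ℤ} {y : Vtx} : y ∈ core h ↔
    (-h ≤ y.1 ∧ y.1 ≤ h) ∧ (3 * h ≤ y.2 ∧ y.2 ≤ 5 * h) := by
  unfold core
  rw [Finset.mem_product, Finset.mem_Icc, Finset.mem_Icc]

theorem RE_SR {h a b c d : ℤ} (H : ∀ x y : ℤ, a ≤ x → x ≤ b → c ≤ y → y ≤ d →
    ((x, y) : Vtx) ∈ HA2 h) : RE a b c d ⊆ SR h := RE_sub_ES H

/-- The regions of the events are contained in `SR h`. -/
theorem geo_arms {h : ℤ} {v : Vtx} (hv : v ∈ core h) :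
    RE (v.1 - 6 * h) (v.1 + 6 * h) (v.2 - 2 * h) (v.2 + 2 * h) ⊆ SR h := by
  rw [mem_core] at hv
  exact RE_SR (fun x y h1 h2 h3 h4 => by rw [mem_HA2]; simp only; omega)

theorem geo_armL {h : ℤ} {v : Vtx} (hv : v ∈ core h) :
    RE (v.1 - 6 * h) (v.1 + 2 * h) (v.2 - 2 * h) (v.2 + 2 * h) ⊆ SR h := by
  rw [mem_core] at hv
  exact RE_SR (fun x y h1 h2 h3 h4 => by rw [mem_HA2]; simp only; omega)

theorem geo_armR {h : ℤ} {v : Vtx} (hv : v ∈ core h) :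
    RE (v.1 - 2 * h) (v.1 + 6 * h) (v.2 - 2 * h) (v.2 + 2 * h) ⊆ SR h := by
  rw [mem_core] at hv
  exact RE_SR (fun x y h1 h2 h3 h4 => by rw [mem_HA2]; simp only; omega)

theorem geo_CL {h : ℤ} : RE (-(5 * h)) (-(3 * h) - 1) 0 (7 * h) ⊆ SR h :=
  RE_SR (fun x y h1 h2 h3 h4 => by rw [mem_HA2]; simp only; omega)

theorem geo_CR {h : ℤ} : RE (3 * h + 1) (5 * h) 0 (7 * h) ⊆ SR h :=
  RE_SR (fun x y h1 h2 h3 h4 => by rw [mem_HA2]; simp only; omega)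

theorem HA2_sub (R : Rect) {δ : ℝ} (hδ : 0 < δ) {h : ℤ} (hh : 2 ≤ h)
    (hd : 16 * (h : ℝ) * δ ≤ R.L0) : HA2 h ⊆ R.verts δ := by
  intro v hv
  obtain ⟨h1, h2, h3⟩ := geo_box R hδ hh hd
  rw [mem_HA2] at hv
  rw [Rect.mem_verts']
  omega

theorem SR_sub (R : Rect) {δ : ℝ} (hδ : 0 < δ) {h : ℤ} (hh : 2 ≤ h)
    (hd : 16 * (h : ℝ) * δ ≤ R.L0) : SR h ⊆ R.edges δ := by
  intro e he
  unfold SR at he
  rw [mem_ES] at he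
  unfold Rect.edges
  rw [mem_ES]
  exact ⟨HA2_sub R hδ hh hd he.1, HA2_sub R hδ hh hd he.2⟩

end H934F
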