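import Pool.Agent.H934R3.D74.Props
import Pool.Agent.H934R2.Expl.Final

/-! T13: lower bound for the probability that the limits meet a disc above the end point. -/

namespace H934F

open H974 H973 H12S H934E Finset MeasureTheory TopologicalSpace Filter Topology

/-- The half-annulus lies in the discrete domain. -/
theorem t13_SR (R : Rect) {δ : ℝ} (hδ : 0 < δ) {h : ℤ} (hh : 1 ≤ h)
    (hL : 8 * (h : ℝ) * δ < R.L0) : SR h ⊆ R.edges δ := by
  have hA := R.L0_A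
  have hB := R.L0_B
  have hH := R.L0_H
  have h1 : (1:ℝ) ≤ h := by exact_mod_cast hh
  have hv : ∀ v : Vtx, v ∈ HA2 h → v ∈ R.verts δ := by
    intro v hv
    unfold HA2 at hv
    rw [Finset.mem_filter, Finset.mem_product, Finset.mem_Icc, Finset.mem_Icc] at hv
    obtain ⟨⟨⟨a1, a2⟩, a3, a4⟩, _⟩ := hv
    rw [R.mem_verts hδ]
    have b1 : -(7 * (h : ℝ)) ≤ v.1 := by exact_mod_cast a1
    have b2 : (v.1 : ℝ) ≤ 7 * h := by exact_mod_cast a2
    have b3 : (0 : ℝ) ≤ v.2 := by exact_mod_cast a3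
    have b4 : (v.2 : ℝ) ≤ 7 * h := by exact_mod_cast a4
    unfold pt Rect.D
    simp only [Set.mem_ofPred_eq]
    refine ⟨?_, ?_, ?_, ?_⟩
    · nlinarith [mul_le_mul_of_nonneg_left b1 hδ.le, mul_pos hδ (by linarith : (0:ℝ) < h)]
    · nlinarith [mul_le_mul_of_nonneg_left b2 hδ.le, mul_pos hδ (by linarith : (0:ℝ) < h)]
    · positivity
    · nlinarith [mul_le_mul_of_nonneg_left b4 hδ.le, mul_le_mul_of_nonneg_left h1 hδ.le]
  intro e he
  unfold SR at he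
  unfold Rect.edges
  rw [mem_ES] at he ⊢
  exact ⟨hv _ he.1, hv _ he.2⟩

theorem t13_nd {v w : Vtx} {r : ℤ} (h : nd v w ≤ r) :
    (-r ≤ v.1 - w.1 ∧ v.1 - w.1 ≤ r) ∧ (-r ≤ v.2 - w.2 ∧ v.2 - w.2 ≤ r) := by
  unfold nd at h
  rw [max_le_iff, abs_le, abs_le] at h
  exact h

/-- The geometry on the lattice. -/
theorem t13_geo {x y r δ : ℝ} (hδ : 0 < δ) (hr : 0 < r) (hry : r ≤ y) (hx : 8 * |x| ≤ y)
    (hd : 32 * δ < r) :
    2 ≤ ⌊y / (4 * δ)⌋ ∧ 1 ≤ ⌊r / (32 * δ)⌋ ∧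
      (∀ v : Vtx, nd v (⌊x / δ⌋, ⌊y / δ⌋) ≤ ⌊r / (32 * δ)⌋ → v ∈ core ⌊y / (4 * δ)⌋) ∧
      (1 / 2 : ℝ) * (r / y) ^ (1/4 : ℝ) ≤
        ((⌊r / (32 * δ)⌋ : ℝ) / (⌊y / (4 * δ)⌋ : ℝ)) ^ (1/4 : ℝ) ∧
      (∀ v : Vtx, nd v (⌊x / δ⌋, ⌊y / δ⌋) ≤ ⌊r / (32 * δ)⌋ → ∀ s : Bool,
        ‖(pt δ v + ⟨if s then δ / 2 else -(δ / 2), 0⟩) - (⟨x, y⟩ : ℂ)‖ ≤ r) := by
  have hy : 0 < y := hr.trans_le hry
  set Y : ℝ := y / δ with hY
  set X : ℝ := x / δ with hX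
  set P : ℝ := r / δ with hP
  have e1 : y / (4 * δ) = Y / 4 := by rw [hY]; field_simp
  have e2 : r / (32 * δ) = P / 32 := by rw [hP]; field_simp
  rw [e1, e2]
  have hP32 : 32 < P := by rw [hP, lt_div_iff₀ hδ]; exact hd
  have hPY : P ≤ Y := div_le_div_of_nonneg_right hry hδ.le
  have hXY : |X| ≤ Y / 8 := by
    rw [hX, abs_div, abs_of_pos hδ, hY, div_div, mul_comm δ 8, ← div_div]
    exact div_le_div_of_nonneg_right (by linarith) hδ.le
  obtain ⟨hX1, hX2⟩ := abs_le.mp hXY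
  set h : ℤ := ⌊Y / 4⌋ with hh
  set ρ : ℤ := ⌊P / 32⌋ with hρ
  have h1 : (h : ℝ) ≤ Y / 4 := Int.floor_le _
  have h2 : Y / 4 < h + 1 := Int.lt_floor_add_one _
  have r1 : (ρ : ℝ) ≤ P / 32 := Int.floor_le _
  have r2 : P / 32 < ρ + 1 := Int.lt_floor_add_one _
  have x1 : ((⌊X⌋ : ℤ) : ℝ) ≤ X := Int.floor_le _
  have x2 : X < (⌊X⌋ : ℤ) + 1 := Int.lt_floor_add_one _
  have y1 : ((⌊Y⌋ : ℤ) : ℝ) ≤ Y := Int.floor_le _
  have y2 : Y < (⌊Y⌋ : ℤ) + 1 := Int.lt_floor_add_one _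
  have hρ1 : 1 ≤ ρ := by
    have : (0:ℝ) < ρ := by linarith
    exact_mod_cast this
  have hρr : (1:ℝ) ≤ ρ := by exact_mod_cast hρ1
  refine ⟨?_, hρ1, ?_, ?_, ?_⟩
  · have : (1:ℝ) < h := by linarith
    have : (1:ℤ) < h := by exact_mod_cast this
    omega
  · intro v hv
    obtain ⟨⟨a1, a2⟩, a3, a4⟩ := t13_nd hv
    have b1 : -(ρ : ℝ) ≤ v.1 - (⌊X⌋ : ℤ) := by exact_mod_cast a1
    have b2 : (v.1 : ℝ) - (⌊X⌋ : ℤ) ≤ ρ := by exact_mod_cast a2
    have b3 : -(ρ : ℝ) ≤ v.2 - (⌊Y⌋ : ℤ) := by exact_mod_cast a3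
    have b4 : (v.2 : ℝ) - (⌊Y⌋ : ℤ) ≤ ρ := by exact_mod_cast a4
    unfold core
    rw [Finset.mem_product, Finset.mem_Icc, Finset.mem_Icc]
    refine ⟨⟨?_, ?_⟩, ?_, ?_⟩
    · have : -(h : ℝ) ≤ v.1 := by linarith
      exact_mod_cast this
    · have : (v.1 : ℝ) ≤ h := by linarith
      exact_mod_cast this
    · have : 3 * (h : ℝ) ≤ v.2 := by linarith
      exact_mod_cast this
    · have : (v.2 : ℝ) ≤ 5 * h := by linarith
      exact_mod_cast this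
  · have hh0 : (0:ℝ) < h := by linarith
    have e3 : (1 / 16) * (r / y) ≤ (ρ : ℝ) / h := by
      have e4 : r / y = P / Y := by rw [hP, hY]; field_simp
      rw [e4, le_div_iff₀ hh0]
      have hY0 : 0 < Y := by linarith
      calc 1 / 16 * (P / Y) * h ≤ 1 / 16 * (P / Y) * (Y / 4) :=
            mul_le_mul_of_nonneg_left h1 (by positivity)
        _ = P / 64 := by field_simp; norm_num
        _ ≤ ρ := by linarith
    have e5 : ((1 / 16) * (r / y)) ^ (1/4 : ℝ) = (1 / 2 : ℝ) * (r / y) ^ (1/4 : ℝ) := by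
      rw [Real.mul_rpow (by norm_num) (by positivity)]
      congr 1
      rw [show (1 / 16 : ℝ) = (1 / 2) ^ (4:ℝ) by norm_num, ← Real.rpow_mul (by norm_num)]
      norm_num
    rw [← e5]
    exact Real.rpow_le_rpow (by positivity) e3 (by norm_num)
  · intro v hv s
    obtain ⟨⟨a1, a2⟩, a3, a4⟩ := t13_nd hv
    have b1 : -(ρ : ℝ) ≤ v.1 - (⌊X⌋ : ℤ) := by exact_mod_cast a1
    have b2 : (v.1 : ℝ) - (⌊X⌋ : ℤ) ≤ ρ := by exact_mod_cast a2
    have b3 : -(ρ : ℝ) ≤ v.2 - (⌊Y⌋ : ℤ) := by exact_mod_cast a3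
    have b4 : (v.2 : ℝ) - (⌊Y⌋ : ℤ) ≤ ρ := by exact_mod_cast a4
    refine (Complex.norm_le_abs_re_add_abs_im _).trans ?_
    unfold pt
    simp only [Complex.add_re, Complex.sub_re, Complex.add_im, Complex.sub_im, add_zero]
    have hxe : x = δ * X := by rw [hX]; field_simp
    have hye : y = δ * Y := by rw [hY]; field_simp
    have hre : r = δ * P := by rw [hP]; field_simp
    have c1 : |δ * (v.1 : ℝ) + (if s then δ / 2 else -(δ / 2)) - x| ≤ δ * (P / 32 + 3 / 2) := by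
      have : δ * (v.1 : ℝ) + (if s then δ / 2 else -(δ / 2)) - x =
          δ * ((v.1 : ℝ) - X + if s then 1 / 2 else -(1 / 2)) := by
        rw [hxe]; split_ifs <;> ring
      rw [this, abs_mul, abs_of_pos hδ]
      refine mul_le_mul_of_nonneg_left ?_ hδ.le
      rw [abs_le]
      split_ifs <;> constructor <;> linarith
    have c2 : |δ * ((v.2 : ℝ) + 1) - y| ≤ δ * (P / 32 + 1) := by
      have : δ * ((v.2 : ℝ) + 1) - y = δ * ((v.2 : ℝ) + 1 - Y) := by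
        rw [hye]; ring
      rw [this, abs_mul, abs_of_pos hδ]
      refine mul_le_mul_of_nonneg_left ?_ hδ.le
      rw [abs_le]
      constructor <;> linarith
    calc _ ≤ δ * (P / 32 + 3 / 2) + δ * (P / 32 + 1) := add_le_add c1 c2
      _ = δ * (P / 16 + 5 / 2) := by ring
      _ ≤ δ * P := mul_le_mul_of_nonneg_left (by linarith) hδ.le
      _ = r := hre.symm

theorem t13 (h4 : St_T4) (h12 : St_T12) : St_T13 := by
  intro hA hL
  obtain ⟨c, s, hc, h12'⟩ := h12 hA hL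
  refine ⟨c / 2, by positivity, ?_⟩
  intro R δ hδ hlim μ hμ x y r hr hry hx hy
  have hy0 : 0 < y := hr.trans_le hry
  set G : Set (NonemptyCompacts ℂ) :=
    {K : NonemptyCompacts ℂ | ((K : Set ℂ) ∩ Metric.closedBall ⟨x, y⟩ r).Nonempty} with hG
  have hclosed : IsClosed G :=
    NonemptyCompacts.isClosed_inter_nonempty_of_isClosed Metric.isClosed_closedBall
  have key : ENNReal.ofReal (c / 2 * (r / y) ^ (1/4 : ℝ)) ≤
      (μ : Measure (NonemptyCompacts ℂ)) G := by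
    apply R.closed_ge hδ hμ hclosed
    filter_upwards [hlim.eventually_lt_const (show (0:ℝ) < r / 32 by positivity)] with i hi
    have hδi := hδ i
    obtain ⟨g1, g2, g3, g4, g5⟩ := t13_geo (δ := δ i) hδi hr hry hx (by linarith)
    set h : ℤ := ⌊y / (4 * δ i)⌋ with hh
    set ρ : ℤ := ⌊r / (32 * δ i)⌋ with hρ
    have hhy : (h : ℝ) * δ i ≤ y / 4 := by
      have h1 : (h : ℝ) ≤ y / (4 * δ i) := Int.floor_le _
      calc (h : ℝ) * δ i ≤ y / (4 * δ i) * δ i := mul_le_mul_of_nonneg_right h1 hδi.le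
        _ = y / 4 := by field_simp
    have hSR : SR h ⊆ R.edges (δ i) := t13_SR R hδi (by omega) (by linarith)
    have h16 : 16 * (h : ℝ) * δ i ≤ R.L0 := by linarith
    have hq := h12' h g1 (R.edges (δ i)) hSR (⌊x / δ i⌋, ⌊y / δ i⌋) ρ g2 g3
    have e1 : c / 2 * (r / y) ^ (1/4 : ℝ) ≤ c * ((ρ : ℝ) / h) ^ (1/4 : ℝ) := by
      calc c / 2 * (r / y) ^ (1/4 : ℝ) = c * ((1 / 2 : ℝ) * (r / y) ^ (1/4 : ℝ)) := by ring
        _ ≤ _ := mul_le_mul_of_nonneg_left g4 hc.le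
    refine e1.trans (hq.trans ?_)
    apply Q_mono
    rintro F hF ⟨⟨hCL, hCR⟩, v, hv, hE⟩
    obtain ⟨k1, k2⟩ := h4 R (δ i) hδi h g1 h16 F hF hCL hCR s v (g3 v hv) hE
    show ((R.trace (hδ i) F : Set ℂ) ∩ Metric.closedBall ⟨x, y⟩ r).Nonempty
    refine ⟨pt (δ i) v + ⟨if s.1 then δ i / 2 else -(δ i / 2), 0⟩, ?_, ?_⟩
    · rw [R.coe_trace]
      unfold Rect.path
      rw [Set.mem_iUnion₂]
      refine ⟨(v, s), ⟨k1, k2⟩, ?_⟩
      unfold cseg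
      exact left_mem_segment ℝ _ _
    · rw [Metric.mem_closedBall, dist_eq_norm]
      exact g5 v hv s.1
  exact (ENNReal.ofReal_le_iff_le_toReal (measure_ne_top _ _)).mp key

end H934F
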